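import Pool.Agent.E8helper30.RG.Walks

set_option autoImplicit false

namespace Pool.Agent.E8helper30.RG

open scoped Classical

variable {n : ℕ}

theorem atMostTwo_of_classesTwo {G : SimpleGraph (Fin n)} {c : Sym2 (Fin n) → ℕ}
    (h : ClassesTwo G c) : AtMostTwo G c := by
  intro e₁ h₁ e₂ h₂ e₃ h₃ h12 h23
  by_contra hcon
  push Not at hcon
  obtain ⟨d12, d23, d13⟩ := hcon
  have h2 := h e₁ h₁
  have hsub : ({e₁, e₂, e₃} : Set (Sym2 (Fin n))) ⊆ {e' | e' ∈ G.edgeSet ∧ c e' = c e₁} := by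
    intro e he
    rcases he with rfl | rfl | rfl
    · exact ⟨h₁, rfl⟩
    · exact ⟨h₂, h12.symm⟩
    · exact ⟨h₃, (h12.trans h23).symm⟩
  have h3 := Set.ncard_le_ncard hsub (Set.toFinite _)
  have h4 : ({e₁, e₂, e₃} : Set (Sym2 (Fin n))).ncard = 3 := by
    rw [Set.ncard_eq_three]
    exact ⟨e₁, e₂, e₃, d12, d13, d23, rfl⟩
  omega

theorem darts_univ (G : SimpleGraph (Fin n)) :
    (darts G Finset.univ).card = 2 * G.edgeSet.ncard := by
  rw [darts_dg]
  have h1 : ∀ v, dg G Finset.univ v = G.degree v := by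
    intro v
    unfold dg
    rw [← SimpleGraph.card_neighborFinset_eq_degree]
    congr 1
    ext w
    simp
  rw [Finset.sum_congr rfl fun v _ => h1 v, SimpleGraph.sum_degrees_eq_twice_card_edges,
    ← SimpleGraph.coe_edgeFinset, Set.ncard_coe_finset]

/-- a transversal of the colour classes -/
theorem transversal {G : SimpleGraph (Fin n)} {c : Sym2 (Fin n) → ℕ} (h : ClassesTwo G c)
    {t : ℕ} (ht : G.edgeSet.ncard = 2 * t) :
    ∃ H : SimpleGraph (Fin n), H ≤ G ∧ H.edgeSet.ncard = t ∧ Set.InjOn c H.edgeSet := by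
  have hE : G.edgeFinset.card = 2 * t := by
    rw [← ht, ← SimpleGraph.coe_edgeFinset, Set.ncard_coe_finset]
  have hfib : ∀ κ ∈ G.edgeFinset.image c, (G.edgeFinset.filter fun e => c e = κ).card = 2 := by
    intro κ hκ
    obtain ⟨e, he, rfl⟩ := Finset.mem_image.1 hκ
    have := h e (SimpleGraph.mem_edgeFinset.1 he)
    rw [← this, ← Set.ncard_coe_finset]
    congr 1
    ext e'
    simp
  have hC : (G.edgeFinset.image c).card = t := by
    have h1 := Finset.card_eq_sum_card_image c G.edgeFinset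
    rw [Finset.sum_congr rfl hfib, Finset.sum_const, smul_eq_mul, hE] at h1
    omega
  obtain ⟨s, hs, hbij⟩ := Set.exists_subset_bijOn G.edgeSet c
  have hs1 : s.ncard = t := by
    rw [← hC, ← Set.ncard_coe_finset, Finset.coe_image, SimpleGraph.coe_edgeFinset,
      ← hbij.image_eq, Set.ncard_image_of_injOn hbij.injOn]
  have hset : (SimpleGraph.fromEdgeSet s).edgeSet = s := by
    rw [SimpleGraph.edgeSet_fromEdgeSet, sdiff_eq_left, Set.disjoint_left]
    intro e he hd
    exact SimpleGraph.not_isDiag_of_mem_edgeSet G (hs he) hd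
  refine ⟨SimpleGraph.fromEdgeSet s, ?_, ?_, ?_⟩
  · rw [← SimpleGraph.edgeSet_subset_edgeSet, hset]; exact hs
  · rw [hset]; exact hs1
  · rw [hset]; exact hbij.injOn

/-- every graph with an even number of edges has a colouring with classes of size two -/
theorem exists_colouring (G : SimpleGraph (Fin n)) {t : ℕ} (ht : G.edgeSet.ncard = 2 * t) :
    ∃ c : Sym2 (Fin n) → ℕ, ClassesTwo G c := by
  have hE : G.edgeFinset.card = 2 * t := by
    rw [← ht, ← SimpleGraph.coe_edgeFinset, Set.ncard_coe_finset]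
  let φ := Finset.equivFinOfCardEq hE
  refine ⟨fun e => if h : e ∈ G.edgeFinset then (φ ⟨e, h⟩).val / 2 else 0, ?_⟩
  intro e he
  have he' : e ∈ G.edgeFinset := SimpleGraph.mem_edgeFinset.2 he
  set j := (φ ⟨e, he'⟩).val / 2 with hj
  have hlt := (φ ⟨e, he'⟩).isLt
  have hj0 : 2 * j < 2 * t := by omega
  have hj1 : 2 * j + 1 < 2 * t := by omega
  rw [Set.ncard_eq_two]
  refine ⟨(φ.symm ⟨2 * j, hj0⟩).1, (φ.symm ⟨2 * j + 1, hj1⟩).1, ?_, ?_⟩
  · intro h
    have h1 := φ.symm.injective (Subtype.ext h)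
    have h2 : 2 * j = 2 * j + 1 := congrArg Fin.val h1
    omega
  · ext e'
    simp only [Set.mem_setOf_eq, Set.mem_insert_iff, Set.mem_singleton_iff]
    rw [dif_pos he', ← hj]
    constructor
    · rintro ⟨h1, h2⟩
      have h1' : e' ∈ G.edgeFinset := SimpleGraph.mem_edgeFinset.2 h1
      rw [dif_pos h1'] at h2
      have h3 : (φ ⟨e', h1'⟩).val = 2 * j ∨ (φ ⟨e', h1'⟩).val = 2 * j + 1 := by omega
      rcases h3 with h3 | h3
      · left
        have h4 : φ ⟨e', h1'⟩ = ⟨2 * j, hj0⟩ := Fin.ext h3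
        rw [← h4, Equiv.symm_apply_apply]
      · right
        have h4 : φ ⟨e', h1'⟩ = ⟨2 * j + 1, hj1⟩ := Fin.ext h3
        rw [← h4, Equiv.symm_apply_apply]
    · rintro (rfl | rfl)
      · have h5 := (φ.symm ⟨2 * j, hj0⟩).2
        refine ⟨SimpleGraph.mem_edgeFinset.1 h5, ?_⟩
        rw [dif_pos h5, Subtype.coe_eta, Equiv.apply_symm_apply]
        show 2 * j / 2 = j
        omega
      · have h5 := (φ.symm ⟨2 * j + 1, hj1⟩).2
        refine ⟨SimpleGraph.mem_edgeFinset.1 h5, ?_⟩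
        rw [dif_pos h5, Subtype.coe_eta, Equiv.apply_symm_apply]
        show (2 * j + 1) / 2 = j
        omega

/-- there is a graph with any number of edges up to `n choose 2` -/
theorem exists_graph (m : ℕ) (hm : m ≤ n.choose 2) :
    ∃ G : SimpleGraph (Fin n), G.edgeSet.ncard = m := by
  have h1 : (⊤ : SimpleGraph (Fin n)).edgeFinset.card = n.choose 2 := by
    rw [SimpleGraph.card_edgeFinset_top_eq_card_choose_two, Fintype.card_fin]
  obtain ⟨s, hs, hcard⟩ := Finset.exists_subset_card_eq (h1 ▸ hm : m ≤ (⊤ : SimpleGraph (Fin n)).edgeFinset.card)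
  refine ⟨SimpleGraph.fromEdgeSet (s : Set (Sym2 (Fin n))), ?_⟩
  have hset : (SimpleGraph.fromEdgeSet (s : Set (Sym2 (Fin n)))).edgeSet = s := by
    rw [SimpleGraph.edgeSet_fromEdgeSet, sdiff_eq_left, Set.disjoint_left]
    intro e he hd
    exact SimpleGraph.not_isDiag_of_mem_edgeSet ⊤ (SimpleGraph.mem_edgeFinset.1 (hs he)) hd
  rw [hset, Set.ncard_coe_finset, hcard]

end Pool.Agent.E8helper30.RG
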