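import Pool.Agent.E8helper30.RG.Stm

set_option autoImplicit false

namespace Pool.Agent.E8helper30.RG

open scoped Classical

variable {n : ℕ}

theorem dg_sum (G : SimpleGraph (Fin n)) (W : Finset (Fin n)) (v : Fin n) :
    dg G W v = ∑ w ∈ W, if G.Adj v w then 1 else 0 := by
  unfold dg; rw [Finset.card_filter]

theorem darts_sum (G : SimpleGraph (Fin n)) (W : Finset (Fin n)) :
    (darts G W).card = ∑ x ∈ W, ∑ y ∈ W, if G.Adj x y then 1 else 0 := by
  unfold darts; rw [Finset.card_filter, Finset.sum_product]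

theorem darts_dg (G : SimpleGraph (Fin n)) (W : Finset (Fin n)) :
    (darts G W).card = ∑ x ∈ W, dg G W x := by
  rw [darts_sum]; exact Finset.sum_congr rfl fun x _ => (dg_sum G W x).symm

theorem darts_erase (G : SimpleGraph (Fin n)) (W : Finset (Fin n)) (v : Fin n) (hv : v ∈ W) :
    (darts G (W.erase v)).card + 2 * dg G W v = (darts G W).card := by
  obtain ⟨W', hv', rfl⟩ : ∃ W', v ∉ W' ∧ insert v W' = W :=
    ⟨W.erase v, Finset.notMem_erase v W, Finset.insert_erase hv⟩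
  rw [Finset.erase_insert hv', darts_sum, darts_sum, dg_sum, Finset.sum_insert hv',
    Finset.sum_insert hv', Finset.sum_insert hv']
  have h1 : ∑ x ∈ W', ∑ y ∈ insert v W', (if G.Adj x y then 1 else 0) =
      ∑ w ∈ W', (if G.Adj v w then 1 else 0) + ∑ x ∈ W', ∑ y ∈ W', (if G.Adj x y then 1 else 0) := by
    rw [← Finset.sum_add_distrib]
    refine Finset.sum_congr rfl fun x _ => ?_
    rw [Finset.sum_insert hv', G.adj_comm]
  rw [h1]
  simp only [SimpleGraph.irrefl, if_false]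
  ring

theorem dg_erase (G : SimpleGraph (Fin n)) (W : Finset (Fin n)) (x y : Fin n) (hx : x ∈ W)
    (h : G.Adj y x) : dg G (W.erase x) y + 1 = dg G W y := by
  unfold dg
  rw [Finset.filter_erase, Finset.card_erase_add_one]
  exact Finset.mem_filter.2 ⟨hx, h⟩

theorem darts_even (G : SimpleGraph (Fin n)) (m : ℕ) : ∀ W : Finset (Fin n), W.card = m →
    Even (darts G W).card := by
  induction m with
  | zero =>
    intro W hW
    rw [Finset.card_eq_zero] at hW
    subst hW
    simp [darts]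
  | succ m ih =>
    intro W hW
    obtain ⟨v, hv⟩ : W.Nonempty := by
      rw [← Finset.card_pos]; omega
    have h1 := darts_erase G W v hv
    have h2 := ih (W.erase v) (by rw [Finset.card_erase_of_mem hv]; omega)
    rw [← h1]
    exact h2.add (even_two_mul _)

theorem common (G : SimpleGraph (Fin n)) (W : Finset (Fin n)) (x y : Fin n)
    (h : W.card < dg G W x + dg G W y) : ∃ z ∈ W, G.Adj x z ∧ G.Adj y z := by
  by_contra hcon
  push Not at hcon
  have h1 : Disjoint (W.filter fun w => G.Adj x w) (W.filter fun w => G.Adj y w) := by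
    rw [Finset.disjoint_left]
    intro z hz hz'
    rw [Finset.mem_filter] at hz hz'
    exact hcon z hz.1 hz.2 hz'.2
  have h2 := Finset.card_union_of_disjoint h1
  have h3 : ((W.filter fun w => G.Adj x w) ∪ (W.filter fun w => G.Adj y w)).card ≤ W.card :=
    Finset.card_le_card (Finset.union_subset (Finset.filter_subset _ _) (Finset.filter_subset _ _))
  unfold dg at h
  omega

/-- the number of ordered small pairs -/
theorem small_pairs (G : SimpleGraph (Fin n)) (W : Finset (Fin n)) (k : ℕ)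
    (hk : W.card < 2 * k)
    (hno : ∀ x ∈ W, ∀ y ∈ W, ∀ z ∈ W, G.Adj x y → G.Adj y z → G.Adj z x →
      dg G W x = k → dg G W y = k → dg G W z = k → False) :
    3 * (darts G (W.filter fun v => dg G W v = k)).card ≤ (tri G W).card := by
  set S := W.filter fun v => dg G W v = k with hS
  have hex : ∀ p : Fin n × Fin n, ∃ z : Fin n, p ∈ darts G S → z ∈ W ∧ G.Adj p.1 z ∧ G.Adj p.2 z := by
    intro p
    by_cases hp : p ∈ darts G S
    · have hp' := hp
      unfold darts at hp'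
      rw [Finset.mem_filter, Finset.mem_product, hS, Finset.mem_filter, Finset.mem_filter] at hp'
      obtain ⟨z, hz⟩ := common G W p.1 p.2 (by rw [hp'.1.1.2, hp'.1.2.2]; omega)
      exact ⟨z, fun _ => hz⟩
    · exact ⟨p.1, fun h => absurd h hp⟩
  choose g hg using hex
  have hgW : ∀ p ∈ darts G S, g p ∈ W := fun p hp => (hg p hp).1
  have hg1 : ∀ p ∈ darts G S, G.Adj p.1 (g p) := fun p hp => (hg p hp).2.1
  have hg2 : ∀ p ∈ darts G S, G.Adj p.2 (g p) := fun p hp => (hg p hp).2.2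
  have hgS : ∀ p ∈ darts G S, g p ∉ S := by
    intro p hp hmem
    have hp' := hp
    unfold darts at hp'
    rw [Finset.mem_filter, Finset.mem_product, hS, Finset.mem_filter, Finset.mem_filter] at hp'
    rw [hS, Finset.mem_filter] at hmem
    exact hno p.1 hp'.1.1.1 p.2 hp'.1.2.1 (g p) hmem.1 hp'.2 (hg2 p hp) (hg1 p hp).symm
      hp'.1.1.2 hp'.1.2.2 hmem.2
  have hmemS : ∀ p ∈ darts G S, p.1 ∈ S ∧ p.2 ∈ S ∧ G.Adj p.1 p.2 := by
    intro p hp
    unfold darts at hp
    rw [Finset.mem_filter, Finset.mem_product] at hp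
    exact ⟨hp.1.1, hp.1.2, hp.2⟩
  have hSW : ∀ x ∈ S, x ∈ W := fun x hx => (Finset.mem_filter.1 hx).1
  let f1 : Fin n × Fin n → Fin n × Fin n × Fin n := fun p => (p.1, p.2, g p)
  let f2 : Fin n × Fin n → Fin n × Fin n × Fin n := fun p => (g p, p.1, p.2)
  let f3 : Fin n × Fin n → Fin n × Fin n × Fin n := fun p => (p.2, g p, p.1)
  have i1 : ((darts G S).image f1).card = (darts G S).card := by
    apply Finset.card_image_of_injOn
    intro p _ p' _ h
    have e1 : p.1 = p'.1 := congrArg (fun t : Fin n × Fin n × Fin n => t.1) h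
    have e2 : p.2 = p'.2 := congrArg (fun t : Fin n × Fin n × Fin n => t.2.1) h
    exact Prod.ext e1 e2
  have i2 : ((darts G S).image f2).card = (darts G S).card := by
    apply Finset.card_image_of_injOn
    intro p _ p' _ h
    have e1 : p.1 = p'.1 := congrArg (fun t : Fin n × Fin n × Fin n => t.2.1) h
    have e2 : p.2 = p'.2 := congrArg (fun t : Fin n × Fin n × Fin n => t.2.2) h
    exact Prod.ext e1 e2
  have i3 : ((darts G S).image f3).card = (darts G S).card := by
    apply Finset.card_image_of_injOn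
    intro p _ p' _ h
    have e1 : p.1 = p'.1 := congrArg (fun t : Fin n × Fin n × Fin n => t.2.2) h
    have e2 : p.2 = p'.2 := congrArg (fun t : Fin n × Fin n × Fin n => t.1) h
    exact Prod.ext e1 e2
  have key : ∀ (u w : Fin n), u ∈ S → w ∉ S → u ≠ w := fun u w hu hw h => hw (h ▸ hu)
  have d12 : Disjoint ((darts G S).image f1) ((darts G S).image f2) := by
    rw [Finset.disjoint_left]
    intro t h1 h2
    obtain ⟨p, hp, rfl⟩ := Finset.mem_image.1 h1
    obtain ⟨p', hp', h⟩ := Finset.mem_image.1 h2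
    exact key _ _ (hmemS p hp).1 (hgS p' hp') (congrArg (fun t : Fin n × Fin n × Fin n => t.1) h).symm
  have d3 : Disjoint ((darts G S).image f1 ∪ (darts G S).image f2) ((darts G S).image f3) := by
    rw [Finset.disjoint_left]
    intro t h1 h2
    obtain ⟨p', hp', h⟩ := Finset.mem_image.1 h2
    rcases Finset.mem_union.1 h1 with h1 | h1
    · obtain ⟨p, hp, rfl⟩ := Finset.mem_image.1 h1
      exact key _ _ (hmemS p hp).2.1 (hgS p' hp')
        (congrArg (fun t : Fin n × Fin n × Fin n => t.2.1) h).symm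
    · obtain ⟨p, hp, rfl⟩ := Finset.mem_image.1 h1
      exact key _ _ (hmemS p hp).1 (hgS p' hp')
        (congrArg (fun t : Fin n × Fin n × Fin n => t.2.1) h).symm
  have hcard : 3 * (darts G S).card =
      (((darts G S).image f1 ∪ (darts G S).image f2) ∪ (darts G S).image f3).card := by
    rw [Finset.card_union_of_disjoint d3, Finset.card_union_of_disjoint d12, i1, i2, i3]; ring
  rw [hcard]
  apply Finset.card_le_card
  intro t ht
  unfold tri
  rw [Finset.mem_filter, Finset.mem_product, Finset.mem_product]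
  rcases Finset.mem_union.1 ht with ht | ht
  · rcases Finset.mem_union.1 ht with ht | ht
    · obtain ⟨p, hp, rfl⟩ := Finset.mem_image.1 ht
      obtain ⟨ha, hb, hab⟩ := hmemS p hp
      exact ⟨⟨hSW _ ha, hSW _ hb, hgW p hp⟩, hab, hg2 p hp, (hg1 p hp).symm⟩
    · obtain ⟨p, hp, rfl⟩ := Finset.mem_image.1 ht
      obtain ⟨ha, hb, hab⟩ := hmemS p hp
      exact ⟨⟨hgW p hp, hSW _ ha, hSW _ hb⟩, (hg1 p hp).symm, hab, hg2 p hp⟩
  · obtain ⟨p, hp, rfl⟩ := Finset.mem_image.1 ht
    obtain ⟨ha, hb, hab⟩ := hmemS p hp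
    exact ⟨⟨hSW _ hb, hgW p hp, hSW _ ha⟩, hg2 p hp, (hg1 p hp).symm, hab⟩

/-- the arithmetic facts about `F m = m^2/4 + (m+1)/4` -/
theorem F_mod (q : ℕ) : (4 * q) ^ 2 / 4 + (4 * q + 1) / 4 = 4 * q ^ 2 + q ∧
    (4 * q + 1) ^ 2 / 4 + (4 * q + 1 + 1) / 4 = 4 * q ^ 2 + 3 * q ∧
    (4 * q + 2) ^ 2 / 4 + (4 * q + 2 + 1) / 4 = 4 * q ^ 2 + 5 * q + 1 ∧
    (4 * q + 3) ^ 2 / 4 + (4 * q + 3 + 1) / 4 = 4 * q ^ 2 + 7 * q + 3 := by
  refine ⟨?_, ?_, ?_, ?_⟩
  · have h1 : (4 * q) ^ 2 = 4 * (4 * q ^ 2) := by ring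
    rw [h1, Nat.mul_div_cancel_left _ (by norm_num)]; omega
  · have h1 : (4 * q + 1) ^ 2 = 4 * (4 * q ^ 2 + 2 * q) + 1 := by ring
    rw [h1]; omega
  · have h1 : (4 * q + 2) ^ 2 = 4 * (4 * q ^ 2 + 4 * q + 1) := by ring
    rw [h1, Nat.mul_div_cancel_left _ (by norm_num)]; omega
  · have h1 : (4 * q + 3) ^ 2 = 4 * (4 * q ^ 2 + 6 * q + 2) + 1 := by ring
    rw [h1]; omega

theorem min_deg_contra (W : Finset (Fin n)) (d : Fin n → ℕ) (k : ℕ)
    (h1 : 4 * ∑ v ∈ W, (d v) ^ 2 ≤ k * ∑ v ∈ W, d v) (h2 : ∀ v ∈ W, k + 1 ≤ 4 * d v)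
    (h3 : 0 < ∑ v ∈ W, d v) : False := by
  have h4 : (k + 1) * ∑ v ∈ W, d v ≤ 4 * ∑ v ∈ W, (d v) ^ 2 := by
    rw [Finset.mul_sum, Finset.mul_sum]
    apply Finset.sum_le_sum
    intro v hv
    have := Nat.mul_le_mul_right (d v) (h2 v hv)
    nlinarith
  nlinarith

/-- the special case `m = 4 q + 1` with minimal degree `2 q + 1` -/
theorem special (G : SimpleGraph (Fin n)) (W : Finset (Fin n)) (q : ℕ) (hq : 2 ≤ q)
    (hW : W.card = 4 * q + 1)
    (h1 : 4 * ∑ v ∈ W, (dg G W v) ^ 2 ≤ (8 * q + 5) * (darts G W).card)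
    (h2 : 2 * (tri G W).card ≤ 3 * (darts G W).card)
    (hmin : ∀ v ∈ W, 2 * q + 1 ≤ dg G W v)
    (hno : ∀ x ∈ W, ∀ y ∈ W, ∀ z ∈ W, G.Adj x y → G.Adj y z → G.Adj z x →
      dg G W x = 2 * q + 1 → dg G W y = 2 * q + 1 → dg G W z = 2 * q + 1 → False) : False := by
  set S := W.filter fun v => dg G W v = 2 * q + 1 with hS
  set L := W.filter fun v => ¬ dg G W v = 2 * q + 1 with hL
  have hsmall := small_pairs G W (2 * q + 1) (by omega) hno
  rw [← hS] at hsmall
  have hD : (darts G W).card = ∑ v ∈ S, dg G W v + ∑ v ∈ L, dg G W v := by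
    rw [darts_dg, hS, hL]
    exact (Finset.sum_filter_add_sum_filter_not W _ _).symm
  have hD2 : ∑ v ∈ W, (dg G W v) ^ 2 = ∑ v ∈ S, (dg G W v) ^ 2 + ∑ v ∈ L, (dg G W v) ^ 2 := by
    rw [hS, hL]
    exact (Finset.sum_filter_add_sum_filter_not W _ _).symm
  have hcard : S.card + L.card = 4 * q + 1 := by
    rw [← hW, hS, hL]; exact Finset.card_filter_add_card_filter_not _
  have ha : ∑ v ∈ S, dg G W v = S.card * (2 * q + 1) := by
    rw [Finset.sum_congr rfl (fun v hv => (Finset.mem_filter.1 hv).2), Finset.sum_const, smul_eq_mul]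
  have ha2 : ∑ v ∈ S, (dg G W v) ^ 2 = (2 * q + 1) * ∑ v ∈ S, dg G W v := by
    rw [Finset.mul_sum]
    refine Finset.sum_congr rfl fun v hv => ?_
    rw [(Finset.mem_filter.1 hv).2]; ring
  have hLd : ∀ v ∈ L, 2 * q + 2 ≤ dg G W v := by
    intro v hv
    rw [hL, Finset.mem_filter] at hv
    have := hmin v hv.1
    omega
  have hb2 : (8 * q + 8) * ∑ v ∈ L, dg G W v ≤ 4 * ∑ v ∈ L, (dg G W v) ^ 2 := by
    rw [Finset.mul_sum, Finset.mul_sum]
    refine Finset.sum_le_sum fun v hv => ?_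
    have h8 := Nat.mul_le_mul_right (dg G W v) (hLd v hv)
    have e1 : (8 * q + 8) * dg G W v = 4 * ((2 * q + 2) * dg G W v) := by ring
    rw [e1, sq]
    exact Nat.mul_le_mul_left 4 h8
  -- the number of small pairs
  have hSS : ∑ v ∈ S, dg G W v ≤ (darts G S).card + ∑ v ∈ L, dg G W v := by
    have e1 : ∑ v ∈ S, dg G W v =
        (darts G S).card + ∑ x ∈ S, ∑ y ∈ L, (if G.Adj x y then 1 else 0) := by
      rw [darts_sum, ← Finset.sum_add_distrib]
      refine Finset.sum_congr rfl fun x _ => ?_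
      rw [dg_sum, hS, hL]
      exact (Finset.sum_filter_add_sum_filter_not W _ _).symm
    rw [e1]
    apply Nat.add_le_add_left
    rw [Finset.sum_comm]
    refine Finset.sum_le_sum fun y _ => ?_
    rw [dg_sum]
    calc ∑ x ∈ S, (if G.Adj x y then 1 else 0) ≤ ∑ x ∈ W, (if G.Adj x y then 1 else 0) :=
          Finset.sum_le_sum_of_subset (Finset.filter_subset _ _)
      _ = ∑ w ∈ W, (if G.Adj y w then 1 else 0) :=
          Finset.sum_congr rfl fun x _ => by rw [G.adj_comm]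
  set a := ∑ v ∈ S, dg G W v with hadef
  set b := ∑ v ∈ L, dg G W v with hbdef
  set c := ∑ v ∈ L, (dg G W v) ^ 2 with hcdef
  rw [hD2, ha2, hD] at h1
  rw [hD] at h2
  -- 3 b ≤ a, a ≤ 3 b
  have k1 : 4 * c ≤ a + (8 * q + 5) * b := by
    have e1 : 4 * ((2 * q + 1) * a + c) = 4 * c + (8 * q + 4) * a := by ring
    have e2 : (8 * q + 5) * (a + b) = (8 * q + 4) * a + (a + (8 * q + 5) * b) := by ring
    omega
  have k2 : 3 * b ≤ a := by
    have e1 : (8 * q + 8) * b = (8 * q + 5) * b + 3 * b := by ring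
    omega
  have k3 : a ≤ 3 * b := by omega
  have k4 : a = 3 * b := le_antisymm k3 k2
  have k5 : 4 * c ≤ (8 * q + 8) * b := by
    have e1 : (8 * q + 8) * b = (8 * q + 5) * b + 3 * b := by ring
    omega
  have hLe : ∀ v ∈ L, dg G W v = 2 * q + 2 := by
    by_contra hcon
    push Not at hcon
    obtain ⟨v, hv, hne⟩ := hcon
    have hlt : (8 * q + 8) * b < 4 * c := by
      rw [hbdef, hcdef, Finset.mul_sum, Finset.mul_sum]
      refine Finset.sum_lt_sum (fun v hv => ?_) ⟨v, hv, ?_⟩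
      · have h8 := Nat.mul_le_mul_right (dg G W v) (hLd v hv)
        have e1 : (8 * q + 8) * dg G W v = 4 * ((2 * q + 2) * dg G W v) := by ring
        rw [e1, sq]
        exact Nat.mul_le_mul_left 4 h8
      · have h5 := hLd v hv
        have h6 : 2 * q + 3 ≤ dg G W v := by omega
        have h8 := Nat.mul_le_mul_right (dg G W v) h6
        have e1 : (8 * q + 8) * dg G W v = 4 * ((2 * q + 2) * dg G W v) := by ring
        have e2 : (2 * q + 3) * dg G W v = (2 * q + 2) * dg G W v + dg G W v := by ring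
        rw [e1, sq]
        omega
    omega
  have hb : b = L.card * (2 * q + 2) := by
    rw [hbdef, Finset.sum_congr rfl hLe, Finset.sum_const, smul_eq_mul]
  rw [ha, hb] at k4
  obtain ⟨ℓ, hℓ⟩ : ∃ ℓ, L.card = ℓ := ⟨_, rfl⟩
  obtain ⟨σ, hσ⟩ : ∃ σ, S.card = σ := ⟨_, rfl⟩
  rw [hℓ, hσ] at k4 hcard
  have hσ' : σ = 4 * q + 1 - ℓ := by omega
  have hle : ℓ ≤ 4 * q + 1 := by omega
  have k6 : (σ + ℓ) * (2 * q + 1) = ℓ * (8 * q + 7) := by rw [add_mul, k4]; ring
  rw [hcard] at k6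
  clear_value a b c
  clear hno hsmall hLe hb ha hb2 ha2 h1 h2 hmin hadef hbdef hcdef hD hD2 hSS hLd k1 k2 k3 k4 k5
  have e0 : (4 * q + 1) * (2 * q + 1) = 8 * q ^ 2 + 6 * q + 1 := by ring
  rw [e0] at k6
  rcases Nat.lt_or_ge ℓ q with h | h
  · obtain ⟨r, rfl⟩ : ∃ r, q = r + 1 := ⟨q - 1, by omega⟩
    have h7 : ℓ * (8 * (r + 1) + 7) ≤ r * (8 * (r + 1) + 7) := Nat.mul_le_mul_right _ (by omega)
    have e1 : r * (8 * (r + 1) + 7) = 8 * r ^ 2 + 15 * r := by ring
    have e2 : 8 * (r + 1) ^ 2 + 6 * (r + 1) + 1 = 8 * r ^ 2 + 22 * r + 15 := by ring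
    omega
  · have h7 : q * (8 * q + 7) ≤ ℓ * (8 * q + 7) := Nat.mul_le_mul_right _ h
    have e1 : q * (8 * q + 7) = 8 * q ^ 2 + 7 * q := by ring
    omega

theorem dg_erase_tri (G : SimpleGraph (Fin n)) (W : Finset (Fin n)) (x y z : Fin n)
    (hx : x ∈ W) (hy : y ∈ W) (hz : z ∈ W) (hxy : G.Adj x y) (hyz : G.Adj y z) (hzx : G.Adj z x) :
    (darts G (((W.erase x).erase y).erase z)).card + 2 * (dg G W x + dg G W y + dg G W z) =
      (darts G W).card + 6 ∧ (((W.erase x).erase y).erase z).card + 3 = W.card := by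
  have hy' : y ∈ W.erase x := Finset.mem_erase.2 ⟨hxy.ne.symm, hy⟩
  have hz' : z ∈ W.erase x := Finset.mem_erase.2 ⟨hzx.ne, hz⟩
  have hz'' : z ∈ (W.erase x).erase y := Finset.mem_erase.2 ⟨hyz.ne.symm, hz'⟩
  have h1 := darts_erase G W x hx
  have h2 := darts_erase G (W.erase x) y hy'
  have h3 := darts_erase G ((W.erase x).erase y) z hz''
  have h4 := dg_erase G W x y hx hxy.symm
  have h5 := dg_erase G W x z hx hzx
  have h6 := dg_erase G (W.erase x) y z hy' hyz.symm
  have c1 := Finset.card_erase_add_one hx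
  have c2 := Finset.card_erase_add_one hy'
  have c3 := Finset.card_erase_add_one hz''
  constructor <;> omega

theorem main_ind (hT : S_T) (hQ : S_Q) (G : SimpleGraph (Fin n)) (c : Sym2 (Fin n) → ℕ)
    (hA : AtMostTwo G c) (hN : NoRT G c) : ∀ m : ℕ, ∀ W : Finset (Fin n), W.card = m → 6 ≤ m →
    (darts G W).card ≤ 2 * (m ^ 2 / 4 + (m + 1) / 4) := by
  intro m
  induction m using Nat.strong_induction_on with
  | _ m ih =>
  intro W hW hm
  by_contra hcon
  push Not at hcon
  obtain ⟨e, he⟩ := darts_even G m W hW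
  obtain ⟨τ, hτ1, hτ2⟩ := hT n G c W hA hN
  have hq := hQ n G W
  have hsum := darts_dg G W
  rw [hW, hτ1] at hq
  have h2 : 2 * (tri G W).card ≤ 3 * (darts G W).card := by rw [hτ1]; omega
  obtain ⟨D, hD⟩ : ∃ D, (darts G W).card = D := ⟨_, rfl⟩
  obtain ⟨s, hs⟩ : ∃ s, ∑ v ∈ W, (dg G W v) ^ 2 = s := ⟨_, rfl⟩
  rw [hD] at hcon he hτ2 hq
  rw [hs] at hq
  have h1 : 4 * s ≤ (2 * m + 3) * D := by
    have e1 : (2 * m + 3) * D = 2 * (m * D) + 3 * D := by ring
    omega
  by_cases h6 : m = 6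
  · subst h6
    have h7 : 7 * D ≤ s + 72 := by
      rw [← hD, hsum, ← hs]
      have e2 : (72 : ℕ) = ∑ v ∈ W, 12 := by rw [Finset.sum_const, hW]; rfl
      rw [e2, ← Finset.sum_add_distrib, Finset.mul_sum]
      refine Finset.sum_le_sum fun v _ => ?_
      generalize dg G W v = d
      rcases Nat.lt_or_ge d 4 with h | h
      · interval_cases d <;> norm_num
      · obtain ⟨r, rfl⟩ : ∃ r, d = r + 4 := ⟨d - 4, by omega⟩
        nlinarith
    norm_num at hcon
    have he11 : e ≤ 11 := by omega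
    have he12 : e = 11 := by omega
    subst he12
    have hτ5 : τ ≤ 5 := by omega
    omega
  · have hmin : ∀ v ∈ W, m ^ 2 / 4 + (m + 1) / 4 + 1 ≤ (m - 1) ^ 2 / 4 + (m - 1 + 1) / 4 + dg G W v := by
      intro v hv
      have i1 := ih (m - 1) (by omega) (W.erase v) (by rw [Finset.card_erase_of_mem hv, hW])
        (by omega)
      have i2 := darts_erase G W v hv
      rw [hD] at i2
      omega
    have hpos : 0 < ∑ v ∈ W, dg G W v := by rw [← hsum, hD]; omega
    have h1' : 4 * ∑ v ∈ W, (dg G W v) ^ 2 ≤ (2 * m + 3) * ∑ v ∈ W, dg G W v := by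
      rw [hs, ← hsum, hD]; exact h1
    obtain ⟨q, hq4⟩ : ∃ q, m = 4 * q ∨ m = 4 * q + 1 ∨ m = 4 * q + 2 ∨ m = 4 * q + 3 :=
      ⟨m / 4, by omega⟩
    rcases hq4 with rfl | rfl | rfl | rfl
    · obtain ⟨r, rfl⟩ : ∃ r, q = r + 1 := ⟨q - 1, by omega⟩
      have f1 := (F_mod (r + 1)).1
      have f2 := (F_mod r).2.2.2
      have e1 : 4 * (r + 1) - 1 = 4 * r + 3 := by omega
      rw [e1] at hmin
      refine min_deg_contra W (dg G W) _ h1' (fun v hv => ?_) hpos
      have := hmin v hv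
      rw [f1, f2] at this
      have e3 : 4 * (r + 1) ^ 2 + (r + 1) = 4 * r ^ 2 + 9 * r + 5 := by ring
      omega
    · have hq2 : 2 ≤ q := by omega
      have f1 := (F_mod q).2.1
      have f2 := (F_mod q).1
      have e1 : 4 * q + 1 - 1 = 4 * q := by omega
      rw [e1] at hmin
      rw [f1] at hcon
      have hmin' : ∀ v ∈ W, 2 * q + 1 ≤ dg G W v := by
        intro v hv
        have := hmin v hv
        rw [f1, f2] at this
        omega
      refine special G W q hq2 hW ?_ h2 hmin' ?_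
      · rw [hs, hD]
        have e4 : 2 * (4 * q + 1) + 3 = 8 * q + 5 := by ring
        rw [e4] at h1
        exact h1
      · intro x hx y hy z hz hxy hyz hzx dx dy dz
        obtain ⟨g1, g2⟩ := dg_erase_tri G W x y z hx hy hz hxy hyz hzx
        rw [dx, dy, dz, hD] at g1
        obtain ⟨r, rfl⟩ : ∃ r, q = r + 1 := ⟨q - 1, by omega⟩
        have i1 := ih (4 * r + 2) (by omega) (((W.erase x).erase y).erase z) (by omega) (by omega)
        rw [(F_mod r).2.2.1] at i1
        have e3 : 4 * (r + 1) ^ 2 + 3 * (r + 1) = 4 * r ^ 2 + 11 * r + 7 := by ring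
        omega
    · have f1 := (F_mod q).2.2.1
      have f2 := (F_mod q).2.1
      have e1 : 4 * q + 2 - 1 = 4 * q + 1 := by omega
      rw [e1] at hmin
      refine min_deg_contra W (dg G W) _ h1' (fun v hv => ?_) hpos
      have := hmin v hv
      rw [f1, f2] at this
      omega
    · have f1 := (F_mod q).2.2.2
      have f2 := (F_mod q).2.2.1
      have e1 : 4 * q + 3 - 1 = 4 * q + 2 := by omega
      rw [e1] at hmin
      refine min_deg_contra W (dg G W) _ h1' (fun v hv => ?_) hpos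
      have := hmin v hv
      rw [f1, f2] at this
      omega

theorem t_I (hT : S_T) (hQ : S_Q) : S_I := by
  intro n G c W hA hN h6
  exact main_ind hT hQ G c hA hN W.card W rfl h6

end Pool.Agent.E8helper30.RG
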