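import Pool.Agent.E8helper30.RG.Stm3
import Pool.Agent.E8helper30.RG.Edges

set_option autoImplicit false

namespace Pool.Agent.E8helper30.RG

open scoped Classical

variable {n : ℕ}

/-- a cycle of a subgraph on which the colouring is injective is a rainbow cycle -/
theorem rainbow_of_sub {G H : SimpleGraph (Fin n)} {c : Sym2 (Fin n) → ℕ} (hHG : H ≤ G)
    (hinj : Set.InjOn c H.edgeSet) {v : Fin n} (w : H.Walk v v) (hw : w.IsCycle) :
    HasRainbowCycle G c w.length := by
  refine ⟨v, w.mapLe hHG, hw.mapLe hHG, by simp, ?_⟩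
  have h1 : (w.mapLe hHG).edges = w.edges := by simp
  rw [h1]
  exact List.Nodup.map_on (fun a ha b hb hab => hinj (SimpleGraph.Walk.edges_subset_edgeSet w ha)
    (SimpleGraph.Walk.edges_subset_edgeSet w hb) hab) hw.edges_nodup

/-- upper bound for `t ≥ 3 n` (Moore bound for a transversal) -/
theorem mid_upper (hM : S_MOORE) {t : ℕ} (hn : 0 < n) (ht : 3 * n ≤ t)
    {G : SimpleGraph (Fin n)} {c : Sym2 (Fin n) → ℕ} (hG : G.edgeSet.ncard = 2 * t)
    (hc : ClassesTwo G c) : rg G c ≤ ((2 * (Nat.log (t / n - 1) n + 1) : ℕ) : ℕ∞) := by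
  obtain ⟨H, hHG, hHt, hinj⟩ := transversal hc hG
  have h3 : 3 ≤ t / n := by rw [Nat.le_div_iff_mul_le hn]; exact ht
  obtain ⟨v, w, hw, hl⟩ := hM n (t / n - 1) (Nat.log (t / n - 1) n + 1) H (by omega) hn
    (Nat.lt_pow_succ_log_self (by omega) n) (by
      rw [hHt, Nat.sub_add_cancel (by omega)]; exact Nat.div_mul_le_self t n)
  exact (rg_le (rainbow_of_sub hHG hinj w hw)).trans (by exact_mod_cast hl)

/-- passing to a subgraph with a given number of edges -/
theorem exists_sub (G : SimpleGraph (Fin n)) (m : ℕ) (hm : m ≤ G.edgeSet.ncard) :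
    ∃ H : SimpleGraph (Fin n), H ≤ G ∧ H.edgeSet.ncard = m := by
  have h1 : m ≤ G.edgeFinset.card := by
    rwa [← SimpleGraph.coe_edgeFinset, Set.ncard_coe_finset] at hm
  obtain ⟨s, hs, hcard⟩ := Finset.exists_subset_card_eq h1
  have hset : (SimpleGraph.fromEdgeSet (s : Set (Sym2 (Fin n)))).edgeSet = s := by
    rw [SimpleGraph.edgeSet_fromEdgeSet, sdiff_eq_left, Set.disjoint_left]
    intro e he hd
    exact SimpleGraph.not_isDiag_of_mem_edgeSet G (SimpleGraph.mem_edgeFinset.1 (hs he)) hd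
  refine ⟨SimpleGraph.fromEdgeSet (s : Set (Sym2 (Fin n))), ?_, ?_⟩
  · rw [← SimpleGraph.edgeSet_subset_edgeSet, hset]
    intro e he
    exact SimpleGraph.mem_edgeFinset.1 (hs he)
  · rw [hset, Set.ncard_coe_finset, hcard]

/-- lower bound for all `t` -/
theorem mid_lower (hH : S_HG) {t : ℕ} (hnt : n < t) (h2 : 2 * t ≤ n.choose 2) :
    ∃ (G : SimpleGraph (Fin n)) (c : Sym2 (Fin n) → ℕ), G.edgeSet.ncard = 2 * t ∧ ClassesTwo G c ∧
      ((Nat.log (8 * t / n + 1) (n / 2) + 1 : ℕ) : ℕ∞) ≤ rg G c := by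
  have hn : 0 < n := by
    rcases Nat.eq_zero_or_pos n with h | h
    · subst h; simp at h2; omega
    · exact h
  set D := 8 * t / n + 1 with hD
  set g := Nat.log D (n / 2) with hg
  have hD8 : 8 ≤ 8 * t / n := by
    rw [Nat.le_div_iff_mul_le hn]; omega
  by_cases hg2 : 2 ≤ g
  · have hne : n / 2 ≠ 0 := by
      intro h0
      rw [hg, h0, Nat.log_zero_right] at hg2
      omega
    have hpow : D ^ g ≤ n / 2 := Nat.pow_log_le_self D hne
    obtain ⟨G0, hcyc, hedge⟩ := hH n D g (by omega) hg2 (by omega)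
    have h8 : 8 * t < n * D := by
      rw [hD]; exact Nat.lt_mul_div_succ (8 * t) hn
    obtain ⟨G, hGG, hGc⟩ := exists_sub G0 (2 * t) (by omega)
    obtain ⟨c, hc⟩ := exists_colouring G hGc
    refine ⟨G, c, hGc, hc, le_rg fun k hk => ?_⟩
    obtain ⟨v, w, hw, rfl, -⟩ := hk
    have := hcyc v (w.mapLe hGG) (hw.mapLe hGG)
    simpa using this
  · obtain ⟨G, hG⟩ := exists_graph (n := n) (2 * t) h2
    obtain ⟨c, hc⟩ := exists_colouring G hG
    refine ⟨G, c, hG, hc, le_rg fun k hk => ?_⟩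
    have := three_le hk
    omega

end Pool.Agent.E8helper30.RG
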