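import Pool.Agent.E8helper30.RG.WalkL
import Pool.Agent.E8helper79.RG.Cyc
import Pool.Agent.E8helper63.RG.Build
import Pool.Agent.E8helper70.RG2.Min
import Pool.Agent.E8helper8.RG.Gr

set_option autoImplicit false

namespace Pool.Agent.E8helper30.RG

open scoped Classical

/-- **Sparse range.** -/
theorem sparse_real (n k : ℕ) (hk : 1 ≤ k) (hn : 12 * (k + 2) ≤ n) :
    ∃ (G : SimpleGraph (Fin n)) (c : Sym2 (Fin n) → ℕ),
      G.edgeSet.ncard = 2 * (n + k) ∧ ClassesTwo G c ∧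
      ∀ ℓ : ℕ, HasRainbowCycle G c ℓ → (n : ℝ) / (80 * k) * (1 + Real.log k) ≤ ℓ := by
  set s := n / (3 * (k + 2)) with hs
  set r := Nat.log 5 ((k + 2) / 2) with hr
  have hpos : 0 < 3 * (k + 2) := by omega
  have hs4 : 4 ≤ s := by
    rw [hs, Nat.le_div_iff_mul_le hpos]
    omega
  have hsn : s * (3 * (k + 2)) ≤ n := Nat.div_mul_le_self _ _
  have hne : (k + 2) / 2 ≠ 0 := by omega
  have hr1 : 5 ^ r ≤ (k + 2) / 2 := Nat.pow_log_le_self 5 hne
  have hr2 : (k + 2) / 2 < 5 ^ (r + 1) := Nat.lt_pow_succ_log_self (by norm_num) _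
  obtain ⟨G, c, hG, hc, hl⟩ := sparse Pool.Agent.E8helper8.RG.t_GR t_WALK
    Pool.Agent.E8helper79.RG.t_CYC Pool.Agent.E8helper70.RG2.t_MIN Pool.Agent.E8helper63.RG.t_BUILD
    n k r s hs4 hsn (by omega)
  refine ⟨G, c, hG, hc, fun ℓ hℓ => ?_⟩
  have h1 := hl ℓ hℓ
  have hkR : (1 : ℝ) ≤ k := by exact_mod_cast hk
  have hk0 : (0 : ℝ) < k := by linarith
  -- log k
  have hlog : Real.log k ≤ Real.log 2 + (r + 1) * Real.log 5 := by
    have h2 : (k : ℝ) ≤ 2 * 5 ^ (r + 1) := by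
      have : k ≤ 2 * 5 ^ (r + 1) := by omega
      exact_mod_cast this
    calc Real.log k ≤ Real.log (2 * 5 ^ (r + 1)) := Real.log_le_log hk0 h2
      _ = Real.log 2 + (r + 1) * Real.log 5 := by
        rw [Real.log_mul (by norm_num) (by positivity), Real.log_pow]; push_cast; ring
  have hlog2 : Real.log 2 < 0.7 := by have := Real.log_two_lt_d9; linarith
  have hlog5 : Real.log 5 < 1.63 := by
    have h5 : (5 : ℝ) ^ 3 ≤ 2 ^ 7 := by norm_num
    have h6 : Real.log ((5 : ℝ) ^ 3) ≤ Real.log (2 ^ 7) := Real.log_le_log (by norm_num) h5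
    rw [Real.log_pow, Real.log_pow] at h6
    push_cast at h6
    have := Real.log_two_lt_d9
    linarith
  have hrR : (0 : ℝ) ≤ r := Nat.cast_nonneg r
  have h3 : 1 + Real.log k ≤ (r + 1) * 3.33 := by nlinarith
  have hs1 : (n : ℝ) ≤ s * (45 / 4) * k := by
    have h7 : n < (s + 1) * (3 * (k + 2)) := by
      have e1 := Nat.div_add_mod n (3 * (k + 2))
      have e2 := Nat.mod_lt n hpos
      rw [← hs] at e1
      have e3 : (s + 1) * (3 * (k + 2)) = 3 * (k + 2) * s + 3 * (k + 2) := by ring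
      omega
    have h8 : (n : ℝ) ≤ (s + 1) * (3 * (k + 2)) := by exact_mod_cast h7.le
    have h9 : (s : ℝ) + 1 ≤ 5 / 4 * s := by
      have : (4 : ℝ) ≤ s := by exact_mod_cast hs4
      linarith
    have h10 : (3 * (k + 2) : ℝ) ≤ 9 * k := by linarith
    calc (n : ℝ) ≤ (s + 1) * (3 * (k + 2)) := h8
      _ ≤ (5 / 4 * s) * (9 * k) := by
        apply mul_le_mul h9 h10 (by positivity) (by positivity)
      _ = s * (45 / 4) * k := by ring
  have h11 : (s : ℝ) * (r + 1) ≤ 2 * ℓ := by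
    have : s * (r + 1) ≤ 2 * ℓ := by omega
    exact_mod_cast this
  have h12 : (n : ℝ) / (80 * k) ≤ s * (45 / 4) / 80 := by
    rw [div_le_div_iff₀ (by positivity) (by norm_num)]
    nlinarith
  have hL0 : 0 ≤ 1 + Real.log k := by
    have := Real.log_nonneg hkR
    linarith
  calc (n : ℝ) / (80 * k) * (1 + Real.log k)
      ≤ (s * (45 / 4) / 80) * ((r + 1) * 3.33) := by
        apply mul_le_mul h12 h3 hL0 (by positivity)
    _ = (s * (r + 1)) * (45 / 4 / 80 * 3.33) := by ring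
    _ ≤ (2 * ℓ) * (45 / 4 / 80 * 3.33) := by
        apply mul_le_mul_of_nonneg_right h11 (by norm_num)
    _ ≤ ℓ := by
        have : (0 : ℝ) ≤ ℓ := Nat.cast_nonneg ℓ
        nlinarith

end Pool.Agent.E8helper30.RG
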