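import Pool.Agent.E8helper30.RG.Stm

/-!
# Project RG4 (helper30), MP_df8ddc_co: the upper bound for sparse graphs

A graph with `n` vertices and at least `n + k` edges, `1 ≤ k ≤ n/12`, has a cycle of length at most
`2 (log₂ (2k+4) + 1) (n/k + 2)`.
-/

set_option autoImplicit false

namespace Pool.Agent.E8helper30.RG

open scoped Classical

/-- a minimal vertex set with many edges -/
def S_UCORE : Prop := ∀ (n k : ℕ) (G : SimpleGraph (Fin n)), 1 ≤ k → 12 * k ≤ n →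
  n + k ≤ G.edgeSet.ncard → ∃ S : Finset (Fin n), S.Nonempty ∧ (∀ v ∈ S, 2 ≤ dg G S v) ∧
    (darts G S).card ≤ 2 * (S.card + (k + 1)) ∧
    2 * (n + k) * S.card ≤ n * (darts G S).card ∧
    ∀ T : Finset (Fin n), T ⊂ S → T.Nonempty → n * (darts G T).card < 2 * (n + k) * T.card

/-- in such a set paths of vertices of degree two are short -/
def S_UPATH : Prop := ∀ (n k : ℕ) (G : SimpleGraph (Fin n)) (S : Finset (Fin n)),
  2 * (n + k) * S.card ≤ n * (darts G S).card →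
  (∀ T : Finset (Fin n), T ⊂ S → T.Nonempty → n * (darts G T).card < 2 * (n + k) * T.card) →
  ∀ (u v : Fin n) (p : G.Walk u v), p.IsPath → 1 ≤ p.length → (∀ w ∈ p.support, w ∈ S) →
    (∀ w ∈ p.support.tail, dg G S w = 2) → k * p.length < n

/-- growth -/
def S_UGROW : Prop := ∀ (n L x j : ℕ) (G : SimpleGraph (Fin n)) (S : Finset (Fin n)), S.Nonempty →
  1 ≤ L → (∀ v ∈ S, 2 ≤ dg G S v) → (darts G S).card ≤ 2 * (S.card + x) →
  (∀ (u v : Fin n) (p : G.Walk u v), p.IsPath → 1 ≤ p.length → (∀ w ∈ p.support, w ∈ S) →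
    (∀ w ∈ p.support.tail, dg G S w = 2) → p.length < L) →
  (∀ (v : Fin n) (w : G.Walk v v), w.IsCycle → 2 * j * (L + 1) < w.length) →
  2 ^ j ≤ 2 * x + 2

/-- the bound on the girth -/
def S_UGIRTH : Prop := ∀ (n k : ℕ) (G : SimpleGraph (Fin n)), 1 ≤ k → 12 * k ≤ n →
  n + k ≤ G.edgeSet.ncard → ∃ (v : Fin n) (w : G.Walk v v), w.IsCycle ∧
    w.length ≤ 2 * (Nat.log 2 (2 * k + 4) + 1) * (n / k + 2)

end Pool.Agent.E8helper30.RG
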