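import Pool.Agent.E8helper30.RG.Mid
import Pool.Agent.E8helper30.RG.SparseReal
import Pool.Agent.E8helper30.RG.Stm4

set_option autoImplicit false

namespace Pool.Agent.E8helper30.RG

open scoped Classical

/-- the order of magnitude of `f(n,t)` -/
noncomputable def Phi (n t : ℕ) : ℝ :=
  if 12 * (t - n + 2) ≤ n then (n : ℝ) / ((t - n : ℕ) : ℝ) * (1 + Real.log ((t - n : ℕ) : ℝ))
  else Real.log n / Real.log ((t : ℝ) / n + 1)

theorem up1 (hU : S_UGIRTH) {n k t : ℕ} (hk : 1 ≤ k) (hkn : 12 * k ≤ n) (ht : n + k ≤ t)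
    {G : SimpleGraph (Fin n)} {c : Sym2 (Fin n) → ℕ} (hG : G.edgeSet.ncard = 2 * t)
    (hc : ClassesTwo G c) :
    rg G c ≤ ((2 * (Nat.log 2 (2 * k + 4) + 1) * (n / k + 2) : ℕ) : ℕ∞) := by
  obtain ⟨H, hHG, hHt, hinj⟩ := transversal hc hG
  obtain ⟨v, w, hw, hl⟩ := hU n k H hk hkn (by omega)
  exact (rg_le (rainbow_of_sub hHG hinj w hw)).trans (by exact_mod_cast hl)

theorem natlog_two (m : ℕ) (hm : 0 < m) : (Nat.log 2 m : ℝ) * Real.log 2 ≤ Real.log m := by
  have h1 : (2 : ℝ) ^ Nat.log 2 m ≤ m := by exact_mod_cast Nat.pow_log_le_self 2 hm.ne'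
  have h2 := Real.log_le_log (by positivity) h1
  rwa [Real.log_pow] at h2

/-- upper bound, first case -/
theorem num_up1 (n k : ℕ) (hk : 1 ≤ k) (hkn : 12 * (k + 2) ≤ n) :
    ((2 * (Nat.log 2 (2 * k + 4) + 1) * (n / k + 2) : ℕ) : ℝ) ≤
      152 * ((n : ℝ) / k * (1 + Real.log k)) := by
  have hkR : (1 : ℝ) ≤ k := by exact_mod_cast hk
  have hk0 : (0 : ℝ) < k := by linarith
  have hL0 : 0 ≤ Real.log k := Real.log_nonneg hkR
  have h2 : (0.69 : ℝ) < Real.log 2 := by have := Real.log_two_gt_d9; linarith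
  have h2' : Real.log 2 < 0.7 := by have := Real.log_two_lt_d9; linarith
  have h1 := natlog_two (2 * k + 4) (by omega)
  have h3 : Real.log ((2 * k + 4 : ℕ) : ℝ) ≤ 3 * Real.log 2 + Real.log k := by
    have : ((2 * k + 4 : ℕ) : ℝ) ≤ 2 ^ 3 * k := by push_cast; linarith
    calc Real.log ((2 * k + 4 : ℕ) : ℝ) ≤ Real.log (2 ^ 3 * k) :=
          Real.log_le_log (by positivity) this
      _ = 3 * Real.log 2 + Real.log k := by
          rw [Real.log_mul (by norm_num) hk0.ne', Real.log_pow]; norm_num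
  have h4 : (Nat.log 2 (2 * k + 4) : ℝ) + 1 ≤ 4 * (1 + Real.log k) := by
    by_contra hcon
    push Not at hcon
    nlinarith
  have h5 : ((n / k : ℕ) : ℝ) ≤ (n : ℝ) / k := Nat.cast_div_le
  have h6 : (2 : ℝ) ≤ (n : ℝ) / k := by
    rw [le_div_iff₀ hk0]
    have : 12 * (k + 2) ≤ n := hkn
    have h7 : (12 * (k + 2) : ℝ) ≤ n := by exact_mod_cast this
    linarith
  have h8 : ((n / k : ℕ) : ℝ) + 2 ≤ 2 * ((n : ℝ) / k) := by linarith
  push_cast
  have h9 : (0 : ℝ) ≤ (n : ℝ) / k * (1 + Real.log k) := by positivity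
  calc 2 * ((Nat.log 2 (2 * k + 4) : ℝ) + 1) * (((n / k : ℕ) : ℝ) + 2)
      ≤ 2 * (4 * (1 + Real.log k)) * (2 * ((n : ℝ) / k)) := by
        apply mul_le_mul _ h8 (by positivity) (by positivity)
        linarith
    _ = 16 * ((n : ℝ) / k * (1 + Real.log k)) := by ring
    _ ≤ 152 * ((n : ℝ) / k * (1 + Real.log k)) := by linarith

/-- `y = t/n + 1` is between `2` and `n` -/
theorem y_bounds {n t : ℕ} (hn : 24 ≤ n) (hnt : n < t) (h2 : 2 * t ≤ n.choose 2) :
    (2 : ℝ) ≤ (t : ℝ) / n + 1 ∧ (t : ℝ) / n + 1 ≤ n := by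
  have hn0 : (0 : ℝ) < n := by exact_mod_cast (show 0 < n by omega)
  have hnR : (24 : ℝ) ≤ n := by exact_mod_cast hn
  have ht : (n : ℝ) ≤ t := by exact_mod_cast hnt.le
  constructor
  · have : 1 ≤ (t : ℝ) / n := by rw [le_div_iff₀ hn0]; linarith
    linarith
  · have h3 : n.choose 2 ≤ n * n / 2 := by
      rw [Nat.choose_two_right]
      exact Nat.div_le_div_right (Nat.mul_le_mul_left n (Nat.sub_le n 1))
    have h4 : 4 * t ≤ n * n := by omega
    have h5 : (4 : ℝ) * t ≤ n * n := by exact_mod_cast h4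
    have h6 : (t : ℝ) / n ≤ n / 4 := by
      rw [div_le_iff₀ hn0]; linarith
    linarith

/-- upper bound, second case, `t ≥ 3 n` -/
theorem num_up2 (n t : ℕ) (hn : 24 ≤ n) (h3n : 3 * n ≤ t) (h2 : 2 * t ≤ n.choose 2) :
    ((2 * (Nat.log (t / n - 1) n + 1) : ℕ) : ℝ) ≤
      152 * (Real.log n / Real.log ((t : ℝ) / n + 1)) := by
  obtain ⟨hy2, hyn⟩ := y_bounds hn (by omega) h2
  set y : ℝ := (t : ℝ) / n + 1 with hy
  have hn0 : (0 : ℝ) < n := by exact_mod_cast (show 0 < n by omega)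
  have hlogy : 0 < Real.log y := Real.log_pos (by linarith)
  have hX : 1 ≤ Real.log n / Real.log y := by
    rw [le_div_iff₀ hlogy, one_mul]
    exact Real.log_le_log (by linarith) hyn
  have h3 : 3 ≤ t / n := by rw [Nat.le_div_iff_mul_le (by omega)]; exact h3n
  obtain ⟨q, hq⟩ : ∃ q, t / n - 1 = q := ⟨_, rfl⟩
  rw [hq]
  have hq2 : 2 ≤ q := by omega
  have hqR : (2 : ℝ) ≤ q := by exact_mod_cast hq2
  have hyq : y ≤ q + 3 := by
    have h4 : t < (q + 2) * n := by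
      have e1 := Nat.div_add_mod t n
      have e2 := Nat.mod_lt t (show 0 < n by omega)
      have e3 : t / n = q + 1 := by omega
      rw [e3] at e1
      have e4 : (q + 2) * n = n * (q + 1) + n := by ring
      omega
    have h5 : (t : ℝ) ≤ (q + 2) * n := by exact_mod_cast h4.le
    have h6 : (t : ℝ) / n ≤ q + 2 := by rw [div_le_iff₀ hn0]; exact h5
    rw [hy]; linarith
  have hlogq : 0 < Real.log q := Real.log_pos (by linarith)
  have hyq3 : Real.log y ≤ 3 * Real.log q := by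
    have h7 : y ≤ (q : ℝ) ^ 3 := by nlinarith [sq_nonneg ((q : ℝ) - 2)]
    have h8 := Real.log_le_log (by linarith) h7
    rw [Real.log_pow] at h8
    exact_mod_cast h8
  have hlog : (Nat.log q n : ℝ) * Real.log q ≤ Real.log n := by
    have h1 : (q : ℝ) ^ Nat.log q n ≤ n := by
      exact_mod_cast Nat.pow_log_le_self q (show n ≠ 0 by omega)
    have h2 := Real.log_le_log (by positivity) h1
    rwa [Real.log_pow] at h2
  have h9 : (Nat.log q n : ℝ) ≤ 3 * (Real.log n / Real.log y) := by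
    rw [← mul_div_assoc, le_div_iff₀ hlogy]
    have h0 : (0 : ℝ) ≤ Nat.log q n := Nat.cast_nonneg _
    nlinarith
  push_cast
  linarith

/-- upper bound, second case, `t < 3 n` -/
theorem num_up3 (n t k : ℕ) (hn : 24 ≤ n) (hk : k = n / 12 - 1) (hnt : n < t) (h3n : t < 3 * n)
    (h2 : 2 * t ≤ n.choose 2) :
    ((2 * (Nat.log 2 (2 * k + 4) + 1) * (n / k + 2) : ℕ) : ℝ) ≤
      152 * (Real.log n / Real.log ((t : ℝ) / n + 1)) := by
  obtain ⟨hy2, hyn⟩ := y_bounds hn hnt h2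
  set y : ℝ := (t : ℝ) / n + 1 with hy
  have hn0 : (0 : ℝ) < n := by exact_mod_cast (show 0 < n by omega)
  have hlogy : 0 < Real.log y := Real.log_pos (by linarith)
  have hl2 : 0 < Real.log 2 := Real.log_pos (by norm_num)
  have hy4 : Real.log y ≤ 2 * Real.log 2 := by
    have h3 : (t : ℝ) / n ≤ 3 := by
      rw [div_le_iff₀ hn0]; exact_mod_cast h3n.le
    have h4 : y ≤ 2 ^ 2 := by rw [hy]; linarith
    have h5 := Real.log_le_log (by linarith) h4
    rw [Real.log_pow] at h5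
    exact_mod_cast h5
  have hk1 : 1 ≤ k := by omega
  have hnk : n / k + 2 ≤ 38 := by
    have : n / k < 37 := by
      rw [Nat.div_lt_iff_lt_mul (by omega)]
      omega
    omega
  have hlog : (Nat.log 2 (2 * k + 4) : ℝ) * Real.log 2 + 2 * Real.log 2 ≤ Real.log n := by
    have h1 := natlog_two (2 * k + 4) (by omega)
    have h6 : 4 * (2 * k + 4) ≤ n := by omega
    have h7 : ((2 * k + 4 : ℕ) : ℝ) * 2 ^ 2 ≤ n := by
      have : (2 * k + 4) * 2 ^ 2 ≤ n := by omega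
      exact_mod_cast this
    have h8 := Real.log_le_log (by positivity) h7
    rw [Real.log_mul (by positivity) (by norm_num), Real.log_pow] at h8
    push_cast at h8 h1 ⊢
    linarith
  have h9 : ((Nat.log 2 (2 * k + 4) : ℝ) + 1) * Real.log 2 ≤ Real.log n := by nlinarith
  have h10 : (Nat.log 2 (2 * k + 4) : ℝ) + 1 ≤ 2 * (Real.log n / Real.log y) := by
    rw [← mul_div_assoc, le_div_iff₀ hlogy]
    have h0 : (0 : ℝ) ≤ (Nat.log 2 (2 * k + 4) : ℝ) + 1 := by positivity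
    nlinarith
  have hnkR : ((n / k : ℕ) : ℝ) + 2 ≤ 38 := by exact_mod_cast hnk
  push_cast
  calc 2 * ((Nat.log 2 (2 * k + 4) : ℝ) + 1) * (((n / k : ℕ) : ℝ) + 2)
      ≤ 2 * ((Nat.log 2 (2 * k + 4) : ℝ) + 1) * 38 := by
        apply mul_le_mul_of_nonneg_left hnkR (by positivity)
    _ ≤ 152 * (Real.log n / Real.log y) := by linarith

/-- lower bound, second case -/
theorem num_low (n t : ℕ) (hn : 24 ≤ n) (hnt : n < t) (h2 : 2 * t ≤ n.choose 2) :
    1 / 80 * (Real.log n / Real.log ((t : ℝ) / n + 1)) ≤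
      ((Nat.log (8 * t / n + 1) (n / 2) + 1 : ℕ) : ℝ) := by
  obtain ⟨hy2, hyn⟩ := y_bounds hn hnt h2
  set y : ℝ := (t : ℝ) / n + 1 with hy
  have hn0 : (0 : ℝ) < n := by exact_mod_cast (show 0 < n by omega)
  have hlogy : 0 < Real.log y := Real.log_pos (by linarith)
  set D := 8 * t / n + 1 with hD
  set g := Nat.log D (n / 2) with hg
  have hD8 : 8 ≤ 8 * t / n := by
    rw [Nat.le_div_iff_mul_le (by omega)]; omega
  have h1 : n / 2 < D ^ (g + 1) := Nat.lt_pow_succ_log_self (by omega) _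
  have h3 : (n : ℝ) ≤ 2 * (D : ℝ) ^ (g + 1) := by
    have : n ≤ 2 * D ^ (g + 1) := by omega
    exact_mod_cast this
  have hDR : (D : ℝ) ≤ 8 * y - 7 := by
    have h4 : ((8 * t / n : ℕ) : ℝ) ≤ ((8 * t : ℕ) : ℝ) / n := Nat.cast_div_le
    rw [hD]
    push_cast at h4 ⊢
    rw [hy]
    have : 8 * (t : ℝ) / n = 8 * ((t : ℝ) / n) := by ring
    linarith
  have hD0 : (0 : ℝ) < D := by rw [hD]; positivity
  have hDy : Real.log D ≤ 4 * Real.log y := by
    have h5 : (D : ℝ) ≤ y ^ 4 := by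
      have h6 : 8 * y - 7 ≤ y ^ 4 := by nlinarith [sq_nonneg (y ^ 2 - 4), sq_nonneg (y - 2)]
      linarith
    have h7 := Real.log_le_log hD0 h5
    rw [Real.log_pow] at h7
    exact_mod_cast h7
  have h2y : Real.log 2 ≤ Real.log y := Real.log_le_log (by norm_num) hy2
  have h8 : Real.log n ≤ Real.log 2 + (g + 1) * Real.log D := by
    calc Real.log n ≤ Real.log (2 * (D : ℝ) ^ (g + 1)) := Real.log_le_log hn0 h3
      _ = Real.log 2 + (g + 1) * Real.log D := by
        rw [Real.log_mul (by norm_num) (by positivity), Real.log_pow]; push_cast; ring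
  have hg0 : (0 : ℝ) ≤ g := Nat.cast_nonneg _
  have h9 : Real.log n ≤ 5 * ((g : ℝ) + 1) * Real.log y := by nlinarith
  have h10 : Real.log n / Real.log y ≤ 5 * ((g : ℝ) + 1) := by
    rw [div_le_iff₀ hlogy]; exact h9
  push_cast
  linarith

/-- **Order of magnitude**: lower bound -/
theorem order_low (hH : S_HG) (n t : ℕ) (hn : 24 ≤ n) (hnt : n < t) (h2 : 2 * t ≤ n.choose 2) :
    ∃ (G : SimpleGraph (Fin n)) (c : Sym2 (Fin n) → ℕ) (m : ℕ), G.edgeSet.ncard = 2 * t ∧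
      ClassesTwo G c ∧ (m : ℕ∞) ≤ rg G c ∧ 1 / 80 * Phi n t ≤ m := by
  by_cases h : 12 * (t - n + 2) ≤ n
  · obtain ⟨k, rfl⟩ : ∃ k, t = n + k := ⟨t - n, by omega⟩
    have e : n + k - n = k := by omega
    have hPhi : Phi n (n + k) = (n : ℝ) / k * (1 + Real.log k) := by
      unfold Phi; rw [if_pos h, e]
    obtain ⟨G, c, hG, hc, hl⟩ := sparse_real n k (by omega) (by omega)
    refine ⟨G, c, ⌈(n : ℝ) / (80 * k) * (1 + Real.log k)⌉₊, hG, hc, ?_, ?_⟩
    · exact le_rg fun ℓ hℓ => Nat.ceil_le.2 (hl ℓ hℓ)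
    · rw [hPhi]
      refine le_trans (le_of_eq ?_) (Nat.le_ceil _)
      have hk0 : (k : ℝ) ≠ 0 := by
        have : 0 < k := by omega
        exact_mod_cast this.ne'
      field_simp
  · obtain ⟨G, c, hG, hc, hl⟩ := mid_lower hH hnt h2
    refine ⟨G, c, _, hG, hc, hl, ?_⟩
    have hPhi : Phi n t = Real.log n / Real.log ((t : ℝ) / n + 1) := by
      unfold Phi; rw [if_neg h]
    rw [hPhi]
    exact num_low n t hn hnt h2

/-- **Order of magnitude**: upper bound -/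
theorem order_up (hU : S_UGIRTH) (hM : S_MOORE) (n t : ℕ) (hn : 24 ≤ n) (hnt : n < t)
    (h2 : 2 * t ≤ n.choose 2) :
    ∃ B : ℕ, (B : ℝ) ≤ 152 * Phi n t ∧ ∀ (G : SimpleGraph (Fin n)) (c : Sym2 (Fin n) → ℕ),
      G.edgeSet.ncard = 2 * t → ClassesTwo G c → rg G c ≤ (B : ℕ∞) := by
  by_cases h : 12 * (t - n + 2) ≤ n
  · obtain ⟨k, rfl⟩ : ∃ k, t = n + k := ⟨t - n, by omega⟩
    have e : n + k - n = k := by omega
    have hPhi : Phi n (n + k) = (n : ℝ) / k * (1 + Real.log k) := by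
      unfold Phi; rw [if_pos h, e]
    refine ⟨_, ?_, fun G c hG hc => up1 hU (show 1 ≤ k by omega) (by omega) le_rfl hG hc⟩
    rw [hPhi]
    exact num_up1 n k (by omega) (by omega)
  · have hPhi : Phi n t = Real.log n / Real.log ((t : ℝ) / n + 1) := by
      unfold Phi; rw [if_neg h]
    rw [hPhi]
    by_cases h3 : 3 * n ≤ t
    · exact ⟨_, num_up2 n t hn h3 h2, fun G c hG hc => mid_upper hM (by omega) h3 hG hc⟩
    · exact ⟨_, num_up3 n t _ hn rfl hnt (by omega) h2,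
        fun G c hG hc => up1 hU (k := n / 12 - 1) (by omega) (by omega) (by omega) hG hc⟩

end Pool.Agent.E8helper30.RG
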