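import Pool.Agent.E8helper30.RG.Ind

set_option autoImplicit false

namespace Pool.Agent.E8helper30.RG

open scoped Classical

variable {n : ℕ}

/-- `(G, c)` has a rainbow cycle of length `k` -/
def HasRainbowCycle (G : SimpleGraph (Fin n)) (c : Sym2 (Fin n) → ℕ) (k : ℕ) : Prop :=
  ∃ (v : Fin n) (w : G.Walk v v), w.IsCycle ∧ w.length = k ∧ (w.edges.map c).Nodup

/-- the rainbow girth: the length of a shortest rainbow cycle, `⊤` if there is none -/
noncomputable def rg (G : SimpleGraph (Fin n)) (c : Sym2 (Fin n) → ℕ) : ℕ∞ :=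
  ⨅ (k : ℕ) (_ : HasRainbowCycle G c k), (k : ℕ∞)

theorem rg_le {G : SimpleGraph (Fin n)} {c : Sym2 (Fin n) → ℕ} {k : ℕ}
    (h : HasRainbowCycle G c k) : rg G c ≤ k := iInf₂_le k h

theorem le_rg {G : SimpleGraph (Fin n)} {c : Sym2 (Fin n) → ℕ} {m : ℕ}
    (h : ∀ k, HasRainbowCycle G c k → m ≤ k) : (m : ℕ∞) ≤ rg G c :=
  le_iInf₂ fun k hk => by exact_mod_cast h k hk

theorem three_le {G : SimpleGraph (Fin n)} {c : Sym2 (Fin n) → ℕ} {k : ℕ}
    (h : HasRainbowCycle G c k) : 3 ≤ k := by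
  obtain ⟨v, w, hw, rfl, -⟩ := h
  exact hw.three_le_length

theorem cyc3 {G : SimpleGraph (Fin n)} {c : Sym2 (Fin n) → ℕ} {x y z : Fin n}
    (hxy : G.Adj x y) (hyz : G.Adj y z) (hzx : G.Adj z x)
    (h1 : c s(x, y) ≠ c s(y, z)) (h2 : c s(y, z) ≠ c s(z, x)) (h3 : c s(z, x) ≠ c s(x, y)) :
    HasRainbowCycle G c 3 := by
  refine ⟨x, SimpleGraph.Walk.cons hxy (SimpleGraph.Walk.cons hyz
    (SimpleGraph.Walk.cons hzx SimpleGraph.Walk.nil)), ?_, rfl, ?_⟩
  · rw [SimpleGraph.Walk.cons_isCycle_iff]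
    constructor
    · simp [SimpleGraph.Walk.cons_isPath_iff, hyz.ne, hxy.ne.symm, hzx.ne]
    · simp only [SimpleGraph.Walk.edges_cons, SimpleGraph.Walk.edges_nil, List.mem_cons,
        List.not_mem_nil, or_false, not_or]
      exact ⟨fun h => h1 (by rw [h]), fun h => h3 (by rw [h])⟩
  · simp only [SimpleGraph.Walk.edges_cons, SimpleGraph.Walk.edges_nil, List.map_cons, List.map_nil,
      List.nodup_cons, List.mem_cons, List.not_mem_nil, or_false, not_or, not_false_eq_true,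
      List.nodup_nil, and_true]
    exact ⟨⟨h1, h3.symm⟩, h2⟩

theorem cyc4 {G : SimpleGraph (Fin n)} {c : Sym2 (Fin n) → ℕ} {x y z w : Fin n}
    (hxy : G.Adj x y) (hyz : G.Adj y z) (hzw : G.Adj z w) (hwx : G.Adj w x)
    (hxz : x ≠ z) (hyw : y ≠ w)
    (h1 : c s(x, y) ≠ c s(y, z)) (h2 : c s(x, y) ≠ c s(z, w)) (h3 : c s(x, y) ≠ c s(w, x))
    (h4 : c s(y, z) ≠ c s(z, w)) (h5 : c s(y, z) ≠ c s(w, x)) (h6 : c s(z, w) ≠ c s(w, x)) :
    HasRainbowCycle G c 4 := by
  refine ⟨x, SimpleGraph.Walk.cons hxy (SimpleGraph.Walk.cons hyz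
    (SimpleGraph.Walk.cons hzw (SimpleGraph.Walk.cons hwx SimpleGraph.Walk.nil))), ?_, rfl, ?_⟩
  · rw [SimpleGraph.Walk.cons_isCycle_iff]
    constructor
    · simp [SimpleGraph.Walk.cons_isPath_iff, hyz.ne, hxy.ne.symm, hwx.ne, hzw.ne, hyw, hxz.symm]
    · simp only [SimpleGraph.Walk.edges_cons, SimpleGraph.Walk.edges_nil, List.mem_cons,
        List.not_mem_nil, or_false, not_or]
      exact ⟨fun h => h1 (by rw [h]), fun h => h2 (by rw [h]), fun h => h3 (by rw [h])⟩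
  · simp only [SimpleGraph.Walk.edges_cons, SimpleGraph.Walk.edges_nil, List.map_cons, List.map_nil,
      List.nodup_cons, List.mem_cons, List.not_mem_nil, or_false, not_or, not_false_eq_true,
      List.nodup_nil, and_true]
    exact ⟨⟨h1, h2, h3⟩, ⟨h4, h5⟩, h6⟩

theorem tri_of_cyc3 {G : SimpleGraph (Fin n)} {c : Sym2 (Fin n) → ℕ}
    (h : HasRainbowCycle G c 3) : ¬ NoRT G c := by
  obtain ⟨v, w, hw, hl, hn⟩ := h
  intro hno
  match w, hw, hl, hn with
  | .cons h1 (.cons h2 (.cons h3 .nil)), _, _, hn =>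
    simp only [SimpleGraph.Walk.edges_cons, SimpleGraph.Walk.edges_nil, List.map_cons, List.map_nil,
      List.nodup_cons, List.mem_cons, List.not_mem_nil, or_false, not_or, not_false_eq_true,
      List.nodup_nil, and_true] at hn
    rcases hno _ _ _ h1 h2 h3 with h | h | h
    · exact hn.1.1 h
    · exact hn.2 h
    · exact hn.1.2 h.symm

theorem four_le_rg {G : SimpleGraph (Fin n)} {c : Sym2 (Fin n) → ℕ} (h : NoRT G c) :
    4 ≤ rg G c := by
  have : ((4 : ℕ) : ℕ∞) ≤ rg G c := by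
    apply le_rg
    intro k hk
    have h3 := three_le hk
    rcases Nat.eq_or_lt_of_le h3 with h4 | h4
    · subst h4; exact absurd h (tri_of_cyc3 hk)
    · exact h4
  exact_mod_cast this

theorem rg_eq_three {G : SimpleGraph (Fin n)} {c : Sym2 (Fin n) → ℕ} (h : ¬ NoRT G c) :
    rg G c = 3 := by
  apply le_antisymm
  · unfold NoRT at h
    push Not at h
    obtain ⟨x, y, z, hxy, hyz, hzx, h1, h2, h3⟩ := h
    have := rg_le (cyc3 hxy hyz hzx h1 h2 h3)
    exact_mod_cast this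
  · have : ((3 : ℕ) : ℕ∞) ≤ rg G c := le_rg fun k hk => three_le hk
    exact_mod_cast this

end Pool.Agent.E8helper30.RG
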