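import Pool.Agent.E8helper30.RG.Stm2
import Pool.Agent.E8helper30.RG.Walks

set_option autoImplicit false

namespace Pool.Agent.E8helper30.RG

open scoped Classical

variable {n : ℕ}

theorem reach_line {x y : ℕ → ℕ} {κ a b m : ℕ} (h : Reach x y κ a b m) (b' : ℕ) :
    Reach x y κ a b' (m + ((b - b') + (b' - b))) := by
  rcases Nat.le_total b b' with hb | hb
  · obtain ⟨d, rfl⟩ := Nat.exists_eq_add_of_le hb
    have e : m + ((b - (b + d)) + (b + d - b)) = m + d := by omega
    rw [e]
    clear hb e
    induction d with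
    | zero => exact h
    | succ d ih => exact Reach.up ih
  · obtain ⟨d, rfl⟩ := Nat.exists_eq_add_of_le hb
    have e : m + ((b' + d - b') + (b' - (b' + d))) = m + d := by omega
    rw [e]
    clear hb e
    induction d generalizing m with
    | zero => exact h
    | succ d ih =>
      have h1 : Reach x y κ a (b' + d) (m + 1) := Reach.down h
      have h2 := ih h1
      have e : m + 1 + d = m + (d + 1) := by ring
      rwa [e] at h2

/-- the vertex with number `m` -/
def vx (hn : 0 < n) (m : ℕ) : Fin n := ⟨m % n, Nat.mod_lt _ hn⟩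

theorem vx_val (hn : 0 < n) {m : ℕ} (h : m < n) : (vx hn m).val = m := Nat.mod_eq_of_lt h

theorem vx_eq (hn : 0 < n) {m m' : ℕ} (h : m < n) (h' : m' < n) : vx hn m = vx hn m' ↔ m = m' := by
  rw [Fin.ext_iff, vx_val hn h, vx_val hn h']

/-- the family of edges -/
def pe (hn : 0 < n) (x y : ℕ → ℕ) (s : ℕ) (j : ℕ) (b : Bool) : Sym2 (Fin n) :=
  if j < n - 2 then s(vx hn j, vx hn (j + if b then 2 else 1))
  else s(vx hn (s * x (j - (n - 2))), vx hn (s * y (j - (n - 2)) + if b then 1 else 0))

theorem station_far {s a b e : ℕ} (hs : 4 ≤ s) (hab : a ≠ b) (he : e ≤ 1) :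
    s * a + 3 ≤ s * b + e ∨ s * b + e + 3 ≤ s * a := by
  rcases Nat.lt_or_gt_of_ne hab with h | h
  · left
    have := Nat.mul_le_mul_left s (show a + 1 ≤ b from h)
    rw [mul_add] at this
    omega
  · right
    have := Nat.mul_le_mul_left s (show b + 1 ≤ a from h)
    rw [mul_add] at this
    omega

theorem station_ne {s a b : ℕ} (hs : 4 ≤ s) (h : s * a = s * b + 1) : False := by
  rcases Nat.lt_trichotomy a b with h1 | h1 | h1
  · have := Nat.mul_le_mul_left s (show a + 1 ≤ b from h1)
    rw [mul_add] at this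
    omega
  · subst h1; omega
  · have := Nat.mul_le_mul_left s (show b + 1 ≤ a from h1)
    rw [mul_add] at this
    omega

theorem sparse (hGR : S_GR) (hWALK : S_WALK) (hCYC : S_CYC) (hMIN : S_MIN) (hBUILD : S_BUILD)
    (n k r s : ℕ) (hs : 4 ≤ s) (hsn : s * (3 * (k + 2)) ≤ n) (hr : 2 * 5 ^ r ≤ k + 2) :
    ∃ (G : SimpleGraph (Fin n)) (c : Sym2 (Fin n) → ℕ),
      G.edgeSet.ncard = 2 * (n + k) ∧ ClassesTwo G c ∧
      ∀ ℓ, HasRainbowCycle G c ℓ → s * (r + 1) + 1 ≤ 2 * ℓ := by
  obtain ⟨x, y, hN, hxi, hyi, hxy, hfar⟩ := hGR (3 * (k + 2)) (k + 2) r (by omega)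
  have hn6 : 24 ≤ n := by
    have : 4 * (3 * (k + 2)) ≤ s * (3 * (k + 2)) := Nat.mul_le_mul_right _ hs
    omega
  have hn : 0 < n := by omega
  have hsx : ∀ i < k + 2, s * x i + 4 ≤ n := by
    intro i hi
    have h1 := Nat.mul_le_mul_left s (show x i + 1 ≤ 3 * (k + 2) from (hN i hi).1)
    rw [mul_add] at h1
    omega
  have hsy : ∀ i < k + 2, s * y i + 4 ≤ n := by
    intro i hi
    have h1 := Nat.mul_le_mul_left s (show y i + 1 ≤ 3 * (k + 2) from (hN i hi).2)
    rw [mul_add] at h1
    omega
  have hcancel : ∀ {a b : ℕ}, s * a = s * b → a = b := fun h =>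
    Nat.eq_of_mul_eq_mul_left (by omega) h
  have hb2 : ∀ b : Bool, 1 ≤ (if b then 2 else 1 : ℕ) ∧ (if b then 2 else 1 : ℕ) ≤ 2 := by
    intro b; cases b <;> simp
  have hb1 : ∀ b : Bool, (if b then 1 else 0 : ℕ) ≤ 1 := by intro b; cases b <;> simp
  have hb2i : ∀ b b' : Bool, (if b then 2 else 1 : ℕ) = (if b' then 2 else 1 : ℕ) → b = b' := by
    intro b b'; cases b <;> cases b' <;> simp
  have hb1i : ∀ b b' : Bool, (if b then 1 else 0 : ℕ) = (if b' then 1 else 0 : ℕ) → b = b' := by
    intro b b'; cases b <;> cases b' <;> simp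
  have hBB := hBUILD n (n + k) (pe hn x y s) ?_ ?_
  · obtain ⟨G, c, hcard, hcl, hE, hcol⟩ := hBB
    refine ⟨G, c, hcard, hcl, ?_⟩
    rintro ℓ ⟨v, w, hw, rfl, hnd⟩
    have hinj : ∀ e ∈ w.edges, ∀ e' ∈ w.edges, c e = c e' → e = e' := fun e he e' he' h =>
      List.inj_on_of_nodup_map hnd he he' h
    -- the maximal colour
    have hne : w.edges.toFinset.Nonempty := by
      obtain ⟨u, a, b, -, -, -, h1, -⟩ := hMIN n G v w hw
      exact ⟨_, List.mem_toFinset.2 h1⟩
    obtain ⟨es, hes, hmax⟩ := Finset.exists_max_image w.edges.toFinset c hne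
    rw [List.mem_toFinset] at hes
    obtain ⟨j, hj, b, hej, hcj⟩ := hE es (SimpleGraph.Walk.edges_subset_edgeSet w hes)
    by_cases hjn : j < n - 2
    · -- no chords
      exfalso
      obtain ⟨u, a, b', hua, hub, hab, h1, h2⟩ := hMIN n G v w hw
      have key : ∀ a : Fin n, u < a → s(u, a) ∈ w.edges → c s(u, a) = u.val := by
        intro a hua h1
        obtain ⟨i, hi, d, hei, hci⟩ := hE _ (SimpleGraph.Walk.edges_subset_edgeSet w h1)
        have hle := hmax _ (List.mem_toFinset.2 h1)
        rw [hci, hcj] at hle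
        have hin : i < n - 2 := by omega
        rw [hci]
        unfold pe at hei
        rw [if_pos hin, Sym2.eq_iff] at hei
        have hd := hb2 d
        rcases hei with ⟨h3, h4⟩ | ⟨h3, h4⟩
        · rw [h3, vx_val hn (by omega)]
        · exfalso
          have h5 : u.val < a.val := hua
          rw [h3, h4, vx_val hn (by omega), vx_val hn (by omega)] at h5
          omega
      have h3 := key a hua h1
      have h4 := key b' hub h2
      have h5 := hinj _ h1 _ h2 (by rw [h3, h4])
      rw [Sym2.eq_iff] at h5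
      rcases h5 with ⟨-, h5⟩ | ⟨h5, h6⟩
      · exact hab h5
      · exact absurd h5 (ne_of_lt hub)
    · -- a chord with maximal index
      obtain ⟨κ, rfl⟩ : ∃ κ, j = n - 2 + κ := ⟨j - (n - 2), by omega⟩
      have hκ : κ < k + 2 := by omega
      have hsx' := hsx κ hκ
      have hsy' := hsy κ hκ
      have hbb := hb1 b
      unfold pe at hej
      rw [if_neg hjn, Nat.add_sub_cancel_left] at hej
      obtain ⟨q, hq1, hq2⟩ := hCYC n G v w (vx hn (s * x κ))
        (vx hn (s * y κ + if b then 1 else 0)) hw (hej ▸ hes)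
      have hWW := hWALK n s κ (x κ) x y G _ _ q (by omega) (vx_val hn (by omega)) ?_
      · obtain ⟨b', m, hreach, hlen⟩ := hWW
        rw [vx_val hn (by omega)] at hlen
        have hreach' := reach_line hreach (y κ)
        have hm : r < m + ((b' - y κ) + (y κ - b')) := by
          by_contra hcon
          push Not at hcon
          exact hfar κ hκ _ hcon hreach'
        have h6 : s * (r + 1) ≤ s * (m + ((b' - y κ) + (y κ - b'))) := Nat.mul_le_mul_left s hm
        have h7 : s * (m + ((b' - y κ) + (y κ - b'))) =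
            s * m + ((s * b' - s * y κ) + (s * y κ - s * b')) := by
          rw [mul_add, mul_add, Nat.mul_sub, Nat.mul_sub]
        omega
      · intro u v' huv
        obtain ⟨huv1, huv2⟩ := hq2 _ huv
        obtain ⟨i, hi, d, hei, hci⟩ := hE _ (SimpleGraph.Walk.edges_subset_edgeSet w huv1)
        have hle := hmax _ (List.mem_toFinset.2 huv1)
        have hlt : i < n - 2 + κ := by
          rw [hci, hcj] at hle
          rcases Nat.eq_or_lt_of_le hle with h | h
          · exfalso
            apply huv2
            rw [← hej]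
            exact hinj _ huv1 _ hes (by rw [hci, hcj, h])
          · exact h
        unfold pe at hei
        by_cases hin : i < n - 2
        · left
          rw [if_pos hin, Sym2.eq_iff] at hei
          have hd := hb2 d
          rcases hei with ⟨h3, h4⟩ | ⟨h3, h4⟩ <;>
            rw [h3, h4, vx_val hn (by omega), vx_val hn (by omega)] <;> omega
        · right
          obtain ⟨i', rfl⟩ : ∃ i', i = n - 2 + i' := ⟨i - (n - 2), by omega⟩
          refine ⟨i', by omega, ?_⟩
          rw [if_neg hin, Nat.add_sub_cancel_left, Sym2.eq_iff] at hei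
          have hd := hb1 d
          have hx1 := hsx i' (by omega)
          have hy1 := hsy i' (by omega)
          rcases hei with ⟨h3, h4⟩ | ⟨h3, h4⟩
          · left
            rw [h3, h4, vx_val hn (by omega), vx_val hn (by omega)]
            refine ⟨rfl, ?_⟩
            cases d <;> simp
          · right
            rw [h3, h4, vx_val hn (by omega), vx_val hn (by omega)]
            refine ⟨rfl, ?_⟩
            cases d <;> simp
  · intro j hj b
    unfold pe
    by_cases hjn : j < n - 2
    · rw [if_pos hjn, Sym2.mk_isDiag_iff]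
      have := hb2 b
      rw [vx_eq hn (by omega) (by omega)]
      omega
    · rw [if_neg hjn, Sym2.mk_isDiag_iff]
      have hκ : j - (n - 2) < k + 2 := by omega
      have h1 := hsx _ hκ
      have h2 := hsy _ hκ
      have h3 := hb1 b
      rw [vx_eq hn (by omega) (by omega)]
      have := station_far hs (hxy _ hκ _ hκ) h3
      omega
  · intro j hj j' hj' b b' heq
    unfold pe at heq
    by_cases hjn : j < n - 2 <;> by_cases hjn' : j' < n - 2
    · rw [if_pos hjn, if_pos hjn', Sym2.eq_iff] at heq
      have h1 := hb2 b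
      have h2 := hb2 b'
      rw [vx_eq hn (by omega) (by omega), vx_eq hn (by omega) (by omega),
        vx_eq hn (by omega) (by omega), vx_eq hn (by omega) (by omega)] at heq
      rcases heq with ⟨h3, h4⟩ | ⟨h3, h4⟩
      · exact ⟨h3, hb2i _ _ (by omega)⟩
      · omega
    · exfalso
      have hκ : j' - (n - 2) < k + 2 := by omega
      have h1 := hsx _ hκ
      have h2 := hsy _ hκ
      have h3 := hb1 b'
      have h4 := hb2 b
      have h5 := station_far hs (hxy _ hκ _ hκ) h3
      rw [if_pos hjn, if_neg hjn', Sym2.eq_iff] at heq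
      rw [vx_eq hn (by omega) (by omega), vx_eq hn (by omega) (by omega),
        vx_eq hn (by omega) (by omega), vx_eq hn (by omega) (by omega)] at heq
      omega
    · exfalso
      have hκ : j - (n - 2) < k + 2 := by omega
      have h1 := hsx _ hκ
      have h2 := hsy _ hκ
      have h3 := hb1 b
      have h4 := hb2 b'
      have h5 := station_far hs (hxy _ hκ _ hκ) h3
      rw [if_neg hjn, if_pos hjn', Sym2.eq_iff] at heq
      rw [vx_eq hn (by omega) (by omega), vx_eq hn (by omega) (by omega),
        vx_eq hn (by omega) (by omega), vx_eq hn (by omega) (by omega)] at heq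
      omega
    · have hκ : j - (n - 2) < k + 2 := by omega
      have hκ' : j' - (n - 2) < k + 2 := by omega
      have h1 := hsx _ hκ
      have h2 := hsy _ hκ
      have h1' := hsx _ hκ'
      have h2' := hsy _ hκ'
      have h3 := hb1 b
      have h3' := hb1 b'
      rw [if_neg hjn, if_neg hjn', Sym2.eq_iff] at heq
      rw [vx_eq hn (by omega) (by omega), vx_eq hn (by omega) (by omega),
        vx_eq hn (by omega) (by omega), vx_eq hn (by omega) (by omega)] at heq
      rcases heq with ⟨h4, h5⟩ | ⟨h4, h5⟩
      · have h6 := hxi _ hκ _ hκ' (hcancel h4)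
        have h7 : j = j' := by omega
        subst h7
        exact ⟨rfl, hb1i _ _ (by omega)⟩
      · exfalso
        cases b'
        · simp only [Bool.false_eq_true, if_false, add_zero] at h4
          exact hxy _ hκ _ hκ' (hcancel h4)
        · simp only [if_true] at h4
          exact station_ne hs h4

end Pool.Agent.E8helper30.RG
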