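import Mathlib

/-!
# Project RG (helper30), MP_df8ddc_co: rainbow girth with colour classes of size two

`f(n,t)` is the largest rainbow girth of a graph with `n` vertices and `2t` edges coloured so that each
colour class has exactly two edges. Theorem: if `4 t² > n² (n-1)` (that is `t > n √(n-1) / 2`), `t > n` and
`2 t ≤ n choose 2`, then `f(n,t) = 4` if `2 t ≤ ⌊n²/4⌋ + ⌊(n+1)/4⌋` and `f(n,t) = 3` otherwise.
-/

set_option autoImplicit false

namespace Pool.Agent.E8helper30.RG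

open scoped Classical

variable {n : ℕ}

/-- every colour class has exactly two edges -/
def ClassesTwo (G : SimpleGraph (Fin n)) (c : Sym2 (Fin n) → ℕ) : Prop :=
  ∀ e ∈ G.edgeSet, {e' : Sym2 (Fin n) | e' ∈ G.edgeSet ∧ c e' = c e}.ncard = 2

/-- every colour class has at most two edges -/
def AtMostTwo (G : SimpleGraph (Fin n)) (c : Sym2 (Fin n) → ℕ) : Prop :=
  ∀ e₁ ∈ G.edgeSet, ∀ e₂ ∈ G.edgeSet, ∀ e₃ ∈ G.edgeSet, c e₁ = c e₂ → c e₂ = c e₃ →
    e₁ = e₂ ∨ e₂ = e₃ ∨ e₁ = e₃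

/-- no rainbow triangle -/
def NoRT (G : SimpleGraph (Fin n)) (c : Sym2 (Fin n) → ℕ) : Prop :=
  ∀ x y z, G.Adj x y → G.Adj y z → G.Adj z x →
    c s(x, y) = c s(y, z) ∨ c s(y, z) = c s(z, x) ∨ c s(z, x) = c s(x, y)

/-- ordered triangles inside `W` -/
noncomputable def tri (G : SimpleGraph (Fin n)) (W : Finset (Fin n)) :
    Finset (Fin n × Fin n × Fin n) :=
  (W ×ˢ W ×ˢ W).filter fun p => G.Adj p.1 p.2.1 ∧ G.Adj p.2.1 p.2.2 ∧ G.Adj p.2.2 p.1

/-- ordered edges inside `W` -/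
noncomputable def darts (G : SimpleGraph (Fin n)) (W : Finset (Fin n)) : Finset (Fin n × Fin n) :=
  (W ×ˢ W).filter fun p => G.Adj p.1 p.2

/-- degree of `v` into `W` -/
noncomputable def dg (G : SimpleGraph (Fin n)) (W : Finset (Fin n)) (v : Fin n) : ℕ :=
  (W.filter fun w => G.Adj v w).card

/-- number of triangles: at most half of the number of edges (each non-rainbow triangle uses up a colour) -/
def S_T : Prop := ∀ (n : ℕ) (G : SimpleGraph (Fin n)) (c : Sym2 (Fin n) → ℕ) (W : Finset (Fin n)),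
  AtMostTwo G c → NoRT G c → ∃ τ : ℕ, (tri G W).card = 6 * τ ∧ 4 * τ ≤ (darts G W).card

/-- the degree inequality -/
def S_Q : Prop := ∀ (n : ℕ) (G : SimpleGraph (Fin n)) (W : Finset (Fin n)),
  2 * ∑ v ∈ W, (dg G W v) ^ 2 ≤ W.card * (darts G W).card + (tri G W).card

/-- a graph without triangles and 4-cycles has at most `n √(n-1) / 2` edges -/
def S_B : Prop := ∀ (n : ℕ) (G : SimpleGraph (Fin n)),
  (∀ x y z, G.Adj x y → G.Adj y z → G.Adj z x → False) →
  (∀ x y z w, G.Adj x y → G.Adj y z → G.Adj z w → G.Adj w x → x ≠ z → y ≠ w → False) →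
  4 * G.edgeSet.ncard ^ 2 ≤ n ^ 2 * (n - 1)

/-- the construction -/
def S_CONS : Prop := ∀ n t : ℕ, 2 * t ≤ n ^ 2 / 4 + (n + 1) / 4 →
  ∃ (G : SimpleGraph (Fin n)) (c : Sym2 (Fin n) → ℕ),
    G.edgeSet.ncard = 2 * t ∧ ClassesTwo G c ∧ NoRT G c

/-- the induction -/
def S_I : Prop := ∀ (n : ℕ) (G : SimpleGraph (Fin n)) (c : Sym2 (Fin n) → ℕ) (W : Finset (Fin n)),
  AtMostTwo G c → NoRT G c → 6 ≤ W.card →
  (darts G W).card ≤ 2 * (W.card ^ 2 / 4 + (W.card + 1) / 4)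

end Pool.Agent.E8helper30.RG
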