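import Pool.Agent.E8helper30.RG.Stm

/-!
# Project RG2 (helper30), MP_df8ddc_co: the sparse range

Lower bound `f(n, n+k) ≥ c (n/k) log k` for `2 ≤ k`, `12 (k+2) ≤ n`, matching the known upper bound.

Construction: vertices `0, …, n-1`; colour `i` (`i ≤ n-3`) has the edges `{i, i+1}`, `{i, i+2}`; the `K = k+2`
chord colours `κ` have the edges `{s x_κ, s y_κ}`, `{s x_κ, s y_κ + 1}` where the stations `x_κ, y_κ < N` are
pairwise different and chosen greedily, far apart in the graph of the previous chords.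
-/

set_option autoImplicit false

namespace Pool.Agent.E8helper30.RG

open scoped Classical

/-- `Reach x y κ a b m`: one can go from station `a` to station `b` by `m` unit moves on the line and
by any number of moves along chords with index `< κ` -/
inductive Reach (x y : ℕ → ℕ) (κ : ℕ) : ℕ → ℕ → ℕ → Prop
  | refl (a : ℕ) : Reach x y κ a a 0
  | up {a b m : ℕ} : Reach x y κ a b m → Reach x y κ a (b + 1) (m + 1)
  | down {a b m : ℕ} : Reach x y κ a (b + 1) m → Reach x y κ a b (m + 1)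
  | xy {a m i : ℕ} : i < κ → Reach x y κ a (x i) m → Reach x y κ a (y i) m
  | yx {a m i : ℕ} : i < κ → Reach x y κ a (y i) m → Reach x y κ a (x i) m

/-- greedy choice of `K` chords -/
def S_GR : Prop := ∀ N K r : ℕ, 2 * K + 2 * 5 ^ r ≤ N → ∃ x y : ℕ → ℕ,
  (∀ i < K, x i < N ∧ y i < N) ∧ (∀ i < K, ∀ j < K, x i = x j → i = j) ∧
  (∀ i < K, ∀ j < K, y i = y j → i = j) ∧ (∀ i < K, ∀ j < K, x i ≠ y j) ∧
  ∀ i < K, ∀ m ≤ r, ¬ Reach x y i (x i) (y i) m

/-- an edge `{u, v}` is short or belongs to a chord colour `i < κ` -/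
def GoodEdge (x y : ℕ → ℕ) (s κ u v : ℕ) : Prop :=
  (u ≤ v + 2 ∧ v ≤ u + 2) ∨
  ∃ i < κ, (u = s * x i ∧ (v = s * y i ∨ v = s * y i + 1)) ∨
    (v = s * x i ∧ (u = s * y i ∨ u = s * y i + 1))

/-- a walk made of good edges gives a route between stations -/
def S_WALK : Prop := ∀ (n s κ a : ℕ) (x y : ℕ → ℕ) (G : SimpleGraph (Fin n)) (V U : Fin n)
  (p : G.Walk V U), 0 < s → U.val = s * a →
  (∀ u v : Fin n, s(u, v) ∈ p.edges → GoodEdge x y s κ u.val v.val) →
  ∃ b m : ℕ, Reach x y κ a b m ∧ s * m + (V.val - s * b) + (s * b - V.val) ≤ 2 * p.length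

/-- opening a cycle at one of its edges -/
def S_CYC : Prop := ∀ (n : ℕ) (G : SimpleGraph (Fin n)) (v : Fin n) (w : G.Walk v v) (X Y : Fin n),
  w.IsCycle → s(X, Y) ∈ w.edges →
  ∃ p : G.Walk Y X, p.length + 1 = w.length ∧ ∀ e ∈ p.edges, e ∈ w.edges ∧ e ≠ s(X, Y)

/-- a cycle has two different edges at its lowest vertex -/
def S_MIN : Prop := ∀ (n : ℕ) (G : SimpleGraph (Fin n)) (v : Fin n) (w : G.Walk v v),
  w.IsCycle → ∃ u a b : Fin n, u < a ∧ u < b ∧ a ≠ b ∧ s(u, a) ∈ w.edges ∧ s(u, b) ∈ w.edges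

/-- the coloured graph given by an injective family of pairs of edges -/
def S_BUILD : Prop := ∀ (n t : ℕ) (p : ℕ → Bool → Sym2 (Fin n)),
  (∀ j < t, ∀ b, ¬ (p j b).IsDiag) →
  (∀ j < t, ∀ j' < t, ∀ b b', p j b = p j' b' → j = j' ∧ b = b') →
  ∃ (G : SimpleGraph (Fin n)) (c : Sym2 (Fin n) → ℕ),
    G.edgeSet.ncard = 2 * t ∧ ClassesTwo G c ∧ (∀ e ∈ G.edgeSet, ∃ j < t, ∃ b, e = p j b ∧ c e = j) ∧
    ∀ j < t, ∀ b, c (p j b) = j

end Pool.Agent.E8helper30.RG
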