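import Mathlib

/-!
# Project RG3 (helper30), MP_df8ddc_co: the middle range
-/

set_option autoImplicit false

namespace Pool.Agent.E8helper30.RG

/-- graphs of large girth with many edges (Erdős–Sachs, greedy) -/
def S_HG : Prop := ∀ n D g : ℕ, 2 ≤ D → 2 ≤ g → 2 * D ^ g ≤ n → ∃ G : SimpleGraph (Fin n),
  (∀ (v : Fin n) (w : G.Walk v v), w.IsCycle → g < w.length) ∧ n * D ≤ 4 * G.edgeSet.ncard

/-- the ball bound used for `S_HG`: maximal degree at most `D` -/
def S_BALL : Prop := ∀ (n D g : ℕ) (G : SimpleGraph (Fin n)) (v : Fin n), 2 ≤ D →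
  (∀ u, {w | G.Adj u w}.ncard ≤ D) →
  {u : Fin n | ∃ p : G.Walk v u, p.length + 1 ≤ g}.ncard ≤ D ^ g

/-- the Moore bound -/
def S_MOORE : Prop := ∀ (n q ρ : ℕ) (G : SimpleGraph (Fin n)), 2 ≤ q → 0 < n → n < q ^ ρ →
  (q + 1) * n ≤ G.edgeSet.ncard → ∃ (v : Fin n) (w : G.Walk v v), w.IsCycle ∧ w.length ≤ 2 * ρ

/-- a graph with many edges has a non-empty vertex set inside which all degrees are large -/
def S_CORE : Prop := ∀ (n q : ℕ) (G : SimpleGraph (Fin n)), 0 < n →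
  (q + 1) * n ≤ G.edgeSet.ncard → ∃ S : Set (Fin n), S.Nonempty ∧
    ∀ u ∈ S, q + 2 ≤ {w | w ∈ S ∧ G.Adj u w}.ncard

/-- growth: without short cycles the paths of length `ρ` starting at `v` inside `S` have different
end points, and there are at least `q ^ ρ` of them -/
def S_GROW : Prop := ∀ (n q ρ : ℕ) (G : SimpleGraph (Fin n)) (S : Set (Fin n)), S.Nonempty →
  (∀ u ∈ S, q + 1 ≤ {w | w ∈ S ∧ G.Adj u w}.ncard) →
  (∀ (v : Fin n) (w : G.Walk v v), w.IsCycle → 2 * ρ < w.length) → q ^ ρ ≤ n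

end Pool.Agent.E8helper30.RG
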