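import Pool.Agent.E8helper30.RG.Stm4
import Pool.Agent.E8helper30.RG.Ind
import Pool.Agent.E8helper30.RG.Edges

set_option autoImplicit false

namespace Pool.Agent.E8helper30.RG

open scoped Classical

variable {n : ℕ}

theorem dg_le_pred (G : SimpleGraph (Fin n)) (W : Finset (Fin n)) (v : Fin n) (hv : v ∈ W) :
    dg G W v + 1 ≤ W.card := by
  have h1 : (W.filter fun w => G.Adj v w) ⊆ W.erase v := by
    intro w hw
    rw [Finset.mem_filter] at hw
    exact Finset.mem_erase.2 ⟨fun h => G.loopless.irrefl v (h ▸ hw.2), hw.1⟩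
  have h2 := Finset.card_le_card h1
  rw [Finset.card_erase_of_mem hv] at h2
  have h3 : 0 < W.card := Finset.card_pos.2 ⟨v, hv⟩
  unfold dg
  omega

theorem t_UCORE : S_UCORE := by
  intro n k G hk hn hE
  have hn0 : 0 < n := by omega
  -- minimal set
  let P : Finset (Fin n) → Prop := fun S => S.Nonempty ∧ 2 * (n + k) * S.card ≤ n * (darts G S).card
  have hex : ∃ S, P S := by
    refine ⟨Finset.univ, ?_, ?_⟩
    · exact ⟨⟨0, hn0⟩, Finset.mem_univ _⟩
    · rw [darts_univ, Finset.card_univ, Fintype.card_fin]
      nlinarith [Nat.mul_le_mul_left (2 * n) hE]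
  obtain ⟨S, hS, hmin⟩ : ∃ S, P S ∧ ∀ T, T ⊂ S → ¬ P T := by
    have hfin : ({S | P S} : Set (Finset (Fin n))).Finite := Set.toFinite _
    obtain ⟨S, hS⟩ := hfin.exists_minimal hex
    exact ⟨S, hS.prop, fun T hT hPT => (hS.not_lt hPT) hT⟩
  obtain ⟨hSne, hSd⟩ := hS
  have hmin' : ∀ T : Finset (Fin n), T ⊂ S → T.Nonempty →
      n * (darts G T).card < 2 * (n + k) * T.card := by
    intro T hT hne
    by_contra hcon
    exact hmin T hT ⟨hne, not_lt.1 hcon⟩
  have hScard : S.card ≤ n := by
    simpa using Finset.card_le_univ S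
  have hSpos : 0 < S.card := Finset.card_pos.2 hSne
  -- the key inequality
  have hkey : ∀ v ∈ S, n * (darts G S).card + 2 * (n + k) < 2 * (n + k) * S.card + 2 * n * dg G S v ∨
      S.card = 1 := by
    intro v hv
    by_cases h1 : S.card = 1
    · exact Or.inr h1
    · left
      have hne : (S.erase v).Nonempty := by
        rw [← Finset.card_pos, Finset.card_erase_of_mem hv]; omega
      have h2 := hmin' (S.erase v) (Finset.erase_ssubset hv) hne
      have h3 := darts_erase G S v hv
      have h4 : (S.erase v).card + 1 = S.card := Finset.card_erase_add_one hv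
      nlinarith
  have hne1 : S.card ≠ 1 := by
    intro h1
    obtain ⟨v, rfl⟩ := Finset.card_eq_one.1 h1
    have h2 := dg_le_pred G {v} v (Finset.mem_singleton_self v)
    have h3 : (darts G {v}).card = 0 := by
      rw [darts_dg, Finset.sum_singleton]
      simp only [Finset.card_singleton] at h2; omega
    rw [h3, h1] at hSd
    omega
  have hkey' : ∀ v ∈ S, n * (darts G S).card + 2 * (n + k) < 2 * (n + k) * S.card +
      2 * n * dg G S v := fun v hv => (hkey v hv).resolve_right hne1
  refine ⟨S, hSne, ?_, ?_, hSd, hmin'⟩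
  · intro v hv
    have h1 := hkey' v hv
    by_contra hcon
    have h2 : dg G S v ≤ 1 := by omega
    nlinarith
  · -- excess
    obtain ⟨v, hv, hvm⟩ := Finset.exists_min_image S (fun v => dg G S v) hSne
    have h1 := hkey' v hv
    have h2 : S.card * dg G S v ≤ (darts G S).card := by
      rw [darts_dg]
      have := Finset.card_nsmul_le_sum S (fun v => dg G S v) (dg G S v) hvm
      simpa using this
    have h3 := dg_le_pred G S v hv
    have h4 : (darts G S).card ≤ S.card * (S.card - 1) := by
      rw [darts_dg]
      have := Finset.sum_le_card_nsmul S (fun v => dg G S v) (S.card - 1)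
        (fun x hx => by have := dg_le_pred G S x hx; omega)
      simpa using this
    rcases Nat.lt_or_ge (dg G S v) 3 with hd | hd
    · by_contra hcon
      have h5 : 2 * (S.card + (k + 1)) < (darts G S).card := not_le.1 hcon
      have h6 : dg G S v ≤ 2 := by omega
      have h7 : 2 * n * dg G S v ≤ 2 * n * 2 := Nat.mul_le_mul_left _ h6
      have h8 : n * (2 * (S.card + (k + 1))) ≤ n * (darts G S).card := Nat.mul_le_mul_left _ h5.le
      have h9 : k * S.card ≤ k * n := Nat.mul_le_mul_left _ hScard
      nlinarith
    · -- minimal degree at least three: a set with four elements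
      have h5 : 12 * (darts G S).card + 24 < 26 * S.card + 24 * dg G S v + 1 := by
        by_contra hcon
        have h6 : 26 * S.card + 24 * dg G S v + 1 ≤ 12 * (darts G S).card + 24 := not_lt.1 hcon
        have h7 : n * (26 * S.card + 24 * dg G S v + 1) ≤ n * (12 * (darts G S).card + 24) :=
          Nat.mul_le_mul_left _ h6
        have h8 : 12 * k * (S.card - 1) ≤ n * (S.card - 1) := Nat.mul_le_mul_right _ hn
        obtain ⟨s, hs⟩ : ∃ s, S.card = s + 1 := ⟨S.card - 1, by omega⟩
        rw [hs] at h1 h7 h8
        simp only [Nat.add_sub_cancel] at h8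
        nlinarith
      have h6 : dg G S v = 3 := by
        by_contra hcon
        have h7 : 4 ≤ dg G S v := by omega
        nlinarith
      rw [h6] at h5 h2 h3
      have h8 : S.card = 4 := by omega
      rw [h8] at h4 ⊢
      omega

end Pool.Agent.E8helper30.RG
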