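import Pool.Agent.E8helper30.RG.Sparse

set_option autoImplicit false

namespace Pool.Agent.E8helper30.RG

open scoped Classical

theorem t_WALK : S_WALK := by
  intro n s κ a x y G V U p hs hU
  induction p with
  | nil =>
    intro _
    refine ⟨a, 0, Reach.refl a, ?_⟩
    rw [hU, SimpleGraph.Walk.length_nil]
    omega
  | @cons V V' U h q ih =>
    intro hgood
    obtain ⟨b, m, hr, hl⟩ := ih hU (fun u v huv => hgood u v (by
      rw [SimpleGraph.Walk.edges_cons]; exact List.mem_cons_of_mem _ huv))
    have hg := hgood V V' (by rw [SimpleGraph.Walk.edges_cons]; exact List.mem_cons_self)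
    rw [SimpleGraph.Walk.length_cons]
    rcases hg with ⟨h1, h2⟩ | ⟨i, hi, (⟨h1, h2⟩ | ⟨h1, h2⟩)⟩
    · exact ⟨b, m, hr, by omega⟩
    · -- V = s * x i, V' = s * y i (+1)
      have hr' := Reach.yx hi (reach_line hr (y i))
      refine ⟨x i, _, hr', ?_⟩
      have h7 : s * (m + ((b - y i) + (y i - b))) =
          s * m + ((s * b - s * y i) + (s * y i - s * b)) := by
        rw [mul_add, mul_add, Nat.mul_sub, Nat.mul_sub]
      rw [h7, h1]
      rcases h2 with h2 | h2 <;> omega
    · -- V' = s * x i, V = s * y i (+1)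
      have hr' := Reach.xy hi (reach_line hr (x i))
      refine ⟨y i, _, hr', ?_⟩
      have h7 : s * (m + ((b - x i) + (x i - b))) =
          s * m + ((s * b - s * x i) + (s * x i - s * b)) := by
        rw [mul_add, mul_add, Nat.mul_sub, Nat.mul_sub]
      rw [h7]
      rcases h2 with h2 | h2 <;> omega

end Pool.Agent.E8helper30.RG
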